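import Pool.Agent.PQP.StmtsB
import Pool.Agent.Helper62_PQP.ES1

set_option autoImplicit false

open scoped Topology
open Filter Set Metric

noncomputable section

namespace Pool.Agent.PQP.H21

open Pool.Agent.PQP Pool.Agent.PQP.H62 Pool.Agent.Common_Brouwer

/-- a map of a finite dimensional space which is odd far away has a zero -/
theorem odd_zero {X : Type} [NormedAddCommGroup X] [NormedSpace ℝ X] [FiniteDimensional ℝ X]
    [Nontrivial X] (G : X → X) (hG : Continuous G) (hodd : ∀ u, 1 < ‖u‖ → G (-u) = -G u) :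
    ∃ u, G u = 0 := by
  by_contra hcon
  push Not at hcon
  obtain ⟨n, hn⟩ : ∃ n : ℕ, Module.finrank ℝ X = n + 1 :=
    ⟨Module.finrank ℝ X - 1, by have := Module.finrank_pos (R := ℝ) (M := X); omega⟩
  have hfr : Module.finrank ℝ X = Module.finrank ℝ (Fin (n + 1) → ℝ) := by
    rw [hn, Module.finrank_fin_fun]
  obtain ⟨L⟩ : Nonempty (X ≃L[ℝ] (Fin (n + 1) → ℝ)) :=
    ⟨(LinearEquiv.ofFinrankEq X (Fin (n + 1) → ℝ) hfr).toContinuousLinearEquiv⟩
  -- bound
  obtain ⟨C, hC⟩ : ∃ C, C = ((n : ℝ) + 1) * ‖(L : X →L[ℝ] (Fin (n + 1) → ℝ))‖ + 1 := ⟨_, rfl⟩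
  have hCp : 0 < C := by rw [hC]; positivity
  have hlow : ∀ x : Fin (n + 1) → ℝ, l1 x = 1 → 1 < ‖(2 * C) • L.symm x‖ := by
    intro x hx
    have h1 : l1 x ≤ ((n : ℝ) + 1) * ‖x‖ := by
      unfold l1
      calc ∑ i, |x i| ≤ ∑ _i : Fin (n + 1), ‖x‖ := Finset.sum_le_sum fun i _ => norm_le_pi_norm x i
        _ = ((n : ℝ) + 1) * ‖x‖ := by simp
    have h2 : ‖x‖ ≤ ‖(L : X →L[ℝ] (Fin (n + 1) → ℝ))‖ * ‖L.symm x‖ := by
      have := (L : X →L[ℝ] (Fin (n + 1) → ℝ)).le_opNorm (L.symm x)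
      simpa using this
    have h3 : 1 ≤ C * ‖L.symm x‖ := by
      rw [hC]
      have h4 : ((n : ℝ) + 1) * ‖x‖ ≤
          ((n : ℝ) + 1) * (‖(L : X →L[ℝ] (Fin (n + 1) → ℝ))‖ * ‖L.symm x‖) :=
        mul_le_mul_of_nonneg_left h2 (by positivity)
      have h5 := norm_nonneg (L.symm x)
      nlinarith
    rw [norm_smul, Real.norm_eq_abs, abs_of_pos (by positivity)]
    nlinarith
  refine no_odd n (fun x => L (G ((2 * C) • L.symm x))) ?_ ?_ ?_
  · exact (L.continuous.comp (hG.comp (L.symm.continuous.const_smul _))).continuousOn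
  · intro x _ h0
    have h1 : L (G ((2 * C) • L.symm x)) = 0 := h0
    rw [ContinuousLinearEquiv.map_eq_zero_iff] at h1
    exact hcon _ h1
  · intro x hx
    show L (G ((2 * C) • L.symm (-x))) = -L (G ((2 * C) • L.symm x))
    rw [map_neg, smul_neg, hodd _ (hlow x hx), map_neg]

theorem isClosed_DmP (P E : Type) [NormedAddCommGroup P] [NormedAddCommGroup E] :
    IsClosed (Dm P E) := by
  have e1 : Dm P E = {z : P × E | ‖z.1‖ ≤ 1} ∩ {z : P × E | ‖z.2‖ ≤ 1} := rfl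
  rw [e1]
  exact (isClosed_le continuous_fst.norm continuous_const).inter
    (isClosed_le continuous_snd.norm continuous_const)

/-- approximate zeros -/
theorem approxB {P E : Type} [NormedAddCommGroup P] [NormedSpace ℝ P] [FiniteDimensional ℝ P]
    [Nontrivial P] [NormedAddCommGroup E] [NormedSpace ℝ E] {b : P → P} (hb : Continuous b)
    (hbo : ∀ z, b (-z) = -b z) (hb0 : ∀ z, b z = 0 → z = 0) {β : P × E → P}
    {T : P × E → E} (hβ : ContinuousOn β (Dm P E)) (hT : Cmp (Dm P E) T)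
    (hbd : ∀ z ∈ Bd P E, β z = b z.1 ∧ T z = 0) {ε : ℝ} (hε : 0 < ε) :
    ∃ z ∈ Dm P E, β z = 0 ∧ ‖z.2 - T z‖ ≤ ε := by
  classical
  obtain ⟨hTc, K, hK, hTK⟩ := hT
  have h0K : (0 : E) ∈ K := by
    obtain ⟨p, hp⟩ := exists_ne (0 : P)
    have hn : ‖p‖ ≠ 0 := norm_ne_zero_iff.2 hp
    have hu : ‖‖p‖⁻¹ • p‖ = 1 := by
      rw [norm_smul, norm_inv, norm_norm, inv_mul_cancel₀ hn]
    have e1 : ((‖p‖⁻¹ • p), (0 : E)) ∈ Bd P E := ⟨hu.le, by simp, Or.inl hu⟩
    have e2 : ((‖p‖⁻¹ • p), (0 : E)) ∈ Dm P E := ⟨hu.le, by simp⟩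
    rw [← (hbd _ e1).2]
    exact hTK _ e2
  obtain ⟨t, p, hpc, hpV, hpK⟩ := proj hK (half_pos hε)
  have hVf : FiniteDimensional ℝ (Submodule.span ℝ (t : Set E)) :=
    FiniteDimensional.span_finset ℝ t
  obtain ⟨V, hV⟩ : ∃ V : Submodule ℝ E, V = Submodule.span ℝ (t : Set E) := ⟨_, rfl⟩
  rw [← hV] at hVf
  have hwV : ∀ x, p (T x) - p 0 ∈ V := by
    intro x
    rw [hV]
    exact Submodule.sub_mem _ (hpV _) (hpV _)
  obtain ⟨ι, hι⟩ : ∃ ι : P × V → P × E, ∀ u, ι u = (u.1, (u.2 : E)) := ⟨_, fun _ => rfl⟩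
  have hιc : Continuous ι := by
    have e : ι = fun u => (u.1, (u.2 : E)) := funext hι
    rw [e]
    exact continuous_fst.prodMk (continuous_subtype_val.comp continuous_snd)
  obtain ⟨G, hG⟩ : ∃ G : P × V → P × V, ∀ u, G u = if ι u ∈ Dm P E then
      (β (ι u), u.2 - ⟨p (T (ι u)) - p 0, hwV _⟩) else (b u.1, u.2) := ⟨_, fun _ => rfl⟩
  have hA : IsClosed (ι ⁻¹' Dm P E) := (isClosed_DmP P E).preimage hιc
  have hB : IsClosed {u : P × V | 1 ≤ ‖u‖} := isClosed_le continuous_const continuous_norm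
  have hnorm : ∀ u : P × V, ι u ∈ Dm P E ↔ ‖u‖ ≤ 1 := by
    intro u
    rw [hι, Prod.norm_def, max_le_iff]
    exact Iff.rfl
  have hbdu : ∀ u : P × V, ‖u‖ = 1 → ι u ∈ Bd P E := by
    intro u hu
    have h1 := (hnorm u).2 hu.le
    rw [hι] at h1 ⊢
    refine ⟨h1.1, h1.2, ?_⟩
    rw [Prod.norm_def] at hu
    rcases max_choice ‖u.1‖ ‖u.2‖ with h2 | h2
    · left; rw [← hu, h2]
    · right
      show ‖u.2‖ = 1
      rw [← hu, h2]
  have hGB : ∀ u : P × V, 1 ≤ ‖u‖ → G u = (b u.1, u.2) := by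
    intro u hu
    rw [hG]
    split_ifs with h
    · have h1 : ‖u‖ = 1 := le_antisymm ((hnorm u).1 h) hu
      obtain ⟨h2, h3⟩ := hbd _ (hbdu u h1)
      refine Prod.ext ?_ (Subtype.ext ?_)
      · show β (ι u) = b u.1
        rw [h2, hι]
      · show (u.2 : E) - (p (T (ι u)) - p 0) = u.2
        rw [h3, sub_self, sub_zero]
    · rfl
  have hGc : Continuous G := by
    rw [← continuousOn_univ]
    have hun : (univ : Set (P × V)) = ι ⁻¹' Dm P E ∪ {u : P × V | 1 ≤ ‖u‖} := by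
      ext u
      simp only [mem_univ, mem_union, mem_preimage, mem_setOf_eq, true_iff]
      rw [hnorm]
      exact le_total _ _
    rw [hun]
    refine ContinuousOn.union_of_isClosed ?_ ?_ hA hB
    · have h1 : ContinuousOn (fun u : P × V => β (ι u)) (ι ⁻¹' Dm P E) :=
        hβ.comp hιc.continuousOn fun u hu => hu
      have h2 : ContinuousOn (fun u : P × V => (⟨p (T (ι u)) - p 0, hwV _⟩ : V))
          (ι ⁻¹' Dm P E) := by
        refine Topology.IsInducing.subtypeVal.continuousOn_iff.2 ?_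
        refine ContinuousOn.sub (f := fun u => p (T (ι u))) (g := fun _ => p 0) ?_
          continuousOn_const
        exact hpc.comp (hTc.comp hιc.continuousOn fun u hu => hu) fun u hu => hTK _ hu
      refine (h1.prodMk (continuous_snd.continuousOn.sub h2)).congr fun u hu => ?_
      rw [hG, if_pos (show ι u ∈ Dm P E from hu)]
      rfl
    · refine ((hb.comp continuous_fst).prodMk continuous_snd).continuousOn.congr fun u hu => ?_
      exact hGB u hu
  have : Nontrivial (P × V) := inferInstance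
  obtain ⟨u, hu⟩ := odd_zero G hGc (by
    intro u hu
    rw [hGB u hu.le, hGB (-u) (by rw [norm_neg]; exact hu.le)]
    refine Prod.ext ?_ rfl
    exact hbo u.1)
  have hmem : ι u ∈ Dm P E := by
    by_contra hcon
    rw [hG, if_neg hcon] at hu
    have h1 : b u.1 = 0 := congrArg Prod.fst hu
    have h2 : u.2 = 0 := congrArg Prod.snd hu
    have h3 : u.1 = 0 := hb0 _ h1
    apply hcon
    rw [hnorm, Prod.norm_def, h3, h2, norm_zero, norm_zero, max_self]
    exact zero_le_one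
  rw [hG, if_pos hmem] at hu
  refine ⟨ι u, hmem, congrArg Prod.fst hu, ?_⟩
  have h1 : u.2 - (⟨p (T (ι u)) - p 0, hwV _⟩ : V) = 0 := congrArg Prod.snd hu
  have h2 : (u.2 : E) = p (T (ι u)) - p 0 := congrArg (fun v : V => (v : E)) (sub_eq_zero.1 h1)
  have h3 : (ι u).2 = (u.2 : E) := by rw [hι]
  rw [h3, h2]
  have e1 : p (T (ι u)) - p 0 - T (ι u) = (p (T (ι u)) - T (ι u)) - (p 0 - 0) := by abel
  rw [e1]
  have e2 := hpK _ (hTK _ hmem)
  have e3 := hpK _ h0K
  exact (norm_sub_le _ _).trans (by linarith)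

/-- row BRS -/
theorem brs : BrsStmt := by
  intro P E _ _ _ _ _ _ b hb hbo hb0 hI
  obtain ⟨β, T, hβ, hT, hbd, hno⟩ := hI
  have hex : ∀ n : ℕ, ∃ z ∈ Dm P E, β z = 0 ∧ ‖z.2 - T z‖ ≤ 1 / ((n : ℝ) + 1) :=
    fun n => approxB hb hbo hb0 hβ hT hbd (by positivity)
  choose u huD huβ huT using hex
  obtain ⟨hTc, K, hK, hTK⟩ := hT
  have : ProperSpace P := FiniteDimensional.proper_real P
  obtain ⟨⟨a, k⟩, -, φ, hφ, hlim⟩ := ((isCompact_closedBall (0 : P) 1).prod hK).tendsto_subseq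
    (x := fun n => ((u n).1, T (u n))) (fun n =>
      ⟨mem_closedBall_zero_iff.2 (huD n).1, hTK _ (huD n)⟩)
  have l1 : Tendsto (fun n => (u (φ n)).1) atTop (𝓝 a) :=
    (continuous_fst.tendsto _).comp hlim
  have l2 : Tendsto (fun n => T (u (φ n))) atTop (𝓝 k) :=
    (continuous_snd.tendsto _).comp hlim
  have l3 : Tendsto (fun n => (u (φ n)).2 - T (u (φ n))) atTop (𝓝 0) := by
    refine squeeze_zero_norm (fun n => huT (φ n)) ?_
    exact tendsto_one_div_add_atTop_nhds_zero_nat.comp hφ.tendsto_atTop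
  have l4 : Tendsto (fun n => (u (φ n)).2) atTop (𝓝 k) := by
    have e1 := l3.add l2
    simp only [sub_add_cancel, zero_add] at e1
    exact e1
  have l5 : Tendsto (fun n => u (φ n)) atTop (𝓝 (a, k)) := l1.prodMk_nhds l4
  have hD : (a, k) ∈ Dm P E :=
    (isClosed_DmP P E).mem_of_tendsto l5 (Eventually.of_forall fun n => huD (φ n))
  have l6 : Tendsto (fun n => u (φ n)) atTop (𝓝[Dm P E] (a, k)) :=
    tendsto_nhdsWithin_iff.2 ⟨l5, Eventually.of_forall fun n => huD (φ n)⟩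
  refine hno (a, k) hD ⟨?_, ?_⟩
  · have e1 : Tendsto (fun n => β (u (φ n))) atTop (𝓝 (β (a, k))) := (hβ (a, k) hD).tendsto.comp l6
    simp only [huβ] at e1
    exact (tendsto_nhds_unique e1 tendsto_const_nhds)
  · have e1 : Tendsto (fun n => T (u (φ n))) atTop (𝓝 (T (a, k))) :=
      (hTc (a, k) hD).tendsto.comp l6
    exact tendsto_nhds_unique l2 e1

end Pool.Agent.PQP.H21
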