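import Pool.Agent.PQP.StmtsC

/-!
# Squad PQP, row CLS (classification of balanced densities for constant curvature)

Variant of the proof in StmtsC: `f = ftau e s f` holds everywhere, so by the change of variables
`2 ∫ <e,y> f = ∫ (<e,y> + <e,tau y>) f = 2 s ∫ (1 - <e,y>²)/(1 + s² - 2 s <e,y>) f`.
-/

set_option autoImplicit false

open scoped InnerProductSpace Topology ContDiff Manifold
open MeasureTheory Filter Set

noncomputable section

namespace Pool.Agent.PQP.H21

open Pool.Agent.Helper42_Paneitz Pool.Agent.Helper82_Vir Pool.Agent.FLX Pool.Agent.PQP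

/-- a point orthogonal to `e` -/
theorem exists_orth (e : S4) : ∃ y : S4, ⟪(e : E5), (y : E5)⟫_ℝ = 0 := by
  by_contra hn
  push Not at hn
  -- every coordinate vector would be a multiple; use two of them
  set a : E5 := (e : E5) with ha
  set v : E5 := a 1 • ee 0 - a 0 • ee 1 with hv
  have hav : ⟪a, v⟫_ℝ = 0 := by
    rw [hv, inner_sub_right, inner_smul_right, inner_smul_right, inner_ee, inner_ee]
    ring
  by_cases h0 : v = 0
  · have h1 : a 0 = 0 := by
      have := congrArg (fun w : E5 => w 1) h0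
      simp [hv] at this
      exact this
    refine hn ⟨ee 0, by rw [mem_sphere_zero_iff_norm, norm_ee]⟩ ?_
    show ⟪a, ee 0⟫_ℝ = 0
    rw [inner_ee, h1]
  · refine hn ⟨‖v‖⁻¹ • v, normalize_mem h0⟩ ?_
    show ⟪a, ‖v‖⁻¹ • v⟫_ℝ = 0
    rw [inner_smul_right, hav, mul_zero]

theorem cls (sym : SymStmt) (tau_ : TauStmt) : ClsStmt := by
  intro f hf hbal
  obtain ⟨⟨hfc, hfp, hf1⟩, -⟩ := id hf
  have hinv : ∀ (e x : S4), f x = f (tau e 0 x) ∧ capJ e 0 x = 1 := by
    intro e
    obtain ⟨s, hs1, hs2, heq⟩ := sym f e hf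
    obtain ⟨t1, t2, -, t4, -, t6, -, -⟩ := tau_ e s hs1 hs2
    -- equality everywhere
    have hall : ∀ x, f x = ftau e s f x := by
      intro x
      by_cases hx : x ∈ hcap e s
      · exact heq x hx
      · have hN := (t1 x).1
        have hc : ⟪(e : E5), (x : E5)⟫_ℝ < s := not_le.1 hx
        have hmem : tau e s x ∈ hcap e s := by
          show s ≤ ⟪(e : E5), (tau e s x : E5)⟫_ℝ
          rw [t2, le_div_iff₀ hN]
          nlinarith [mul_pos (show (0 : ℝ) < 1 - s ^ 2 by nlinarith) (sub_pos.2 hc)]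
        have h1 := heq _ hmem
        obtain ⟨h2, h3⟩ := t4 x
        unfold ftau at h1 ⊢
        rw [h2] at h1
        rw [h1]
        have h4 : f x * capJ e s (tau e s x) ^ 4 * capJ e s x ^ 4 =
            f x * (capJ e s (tau e s x) * capJ e s x) ^ 4 := by ring
        rw [h4, h3]
        ring
    -- the moment
    have hcint : ∫ y : S4, ⟪(e : E5), (y : E5)⟫_ℝ * f y ∂sig = 0 := by
      have hint : Integrable (fun y : S4 => f y • (y : E5)) sig :=
        (hfc.smul continuous_subtype_val).integrable_of_hasCompactSupport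
          (HasCompactSupport.of_compactSpace _)
      have h1 := integral_inner (𝕜 := ℝ) hint (e : E5)
      have h2 : ∫ y : S4, f y • (y : E5) ∂sig = 0 := hbal
      rw [h2, inner_zero_right] at h1
      rw [← h1]
      refine integral_congr_ae (Eventually.of_forall fun y => ?_)
      show ⟪(e : E5), (y : E5)⟫_ℝ * f y = ⟪(e : E5), f y • (y : E5)⟫_ℝ
      rw [inner_smul_right]
      ring
    have hce : Continuous fun y : S4 => ⟪(e : E5), (y : E5)⟫_ℝ :=
      continuous_const.inner continuous_subtype_val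
    have hNc : Continuous fun y : S4 => 1 + s ^ 2 - 2 * s * ⟪(e : E5), (y : E5)⟫_ℝ :=
      continuous_const.sub (continuous_const.mul hce)
    have hmom : ∫ y : S4, ⟪(e : E5), (tau e s y : E5)⟫_ℝ * f y ∂sig = 0 := by
      have h6 := t6 (fun y : S4 => ⟪(e : E5), (y : E5)⟫_ℝ * f y)
      rw [hcint] at h6
      rw [← h6]
      refine integral_congr_ae (Eventually.of_forall fun y => ?_)
      show ⟪(e : E5), (tau e s y : E5)⟫_ℝ * f y =
        ⟪(e : E5), (tau e s y : E5)⟫_ℝ * f (tau e s y) * capJ e s y ^ 4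
      rw [mul_assoc]
      congr 1
      exact hall y
    have hc2 : Continuous fun y : S4 => ⟪(e : E5), (tau e s y : E5)⟫_ℝ := by
      have h1 : (fun y : S4 => ⟪(e : E5), (tau e s y : E5)⟫_ℝ) = fun y : S4 =>
          (2 * s - (1 + s ^ 2) * ⟪(e : E5), (y : E5)⟫_ℝ) /
            (1 + s ^ 2 - 2 * s * ⟪(e : E5), (y : E5)⟫_ℝ) := funext fun y => t2 y
      rw [h1]
      exact (continuous_const.sub (continuous_const.mul hce)).div hNc fun y => (t1 y).1.ne'
    have cint : ∀ {h : S4 → ℝ}, Continuous h → Integrable h sig := fun hh =>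
      hh.integrable_of_hasCompactSupport (HasCompactSupport.of_compactSpace _)
    set W : S4 → ℝ := fun y => (1 - ⟪(e : E5), (y : E5)⟫_ℝ ^ 2) /
      (1 + s ^ 2 - 2 * s * ⟪(e : E5), (y : E5)⟫_ℝ) * f y with hW
    have hWc : Continuous W :=
      ((continuous_const.sub (hce.pow 2)).div hNc fun y => (t1 y).1.ne').mul hfc
    have hsum : 2 * s * ∫ y, W y ∂sig = 0 := by
      have h1 : ∫ y : S4, (⟪(e : E5), (y : E5)⟫_ℝ * f y + ⟪(e : E5), (tau e s y : E5)⟫_ℝ * f y)
          ∂sig = 0 := by
        have h2 := integral_add (μ := sig) (f := fun y : S4 => ⟪(e : E5), (y : E5)⟫_ℝ * f y)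
          (g := fun y : S4 => ⟪(e : E5), (tau e s y : E5)⟫_ℝ * f y)
          (cint (hce.mul hfc)) (cint (hc2.mul hfc))
        rw [h2, hcint, hmom, add_zero]
      rw [← integral_const_mul, ← h1]
      refine integral_congr_ae (Eventually.of_forall fun y => ?_)
      show 2 * s * W y = ⟪(e : E5), (y : E5)⟫_ℝ * f y + ⟪(e : E5), (tau e s y : E5)⟫_ℝ * f y
      rw [t2, hW]
      have hN := (t1 y).1.ne'
      simp only
      field_simp
      ring
    have hs0 : s = 0 := by
      by_contra hne
      have h1 : ∫ y, W y ∂sig = 0 := by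
        rcases mul_eq_zero.1 hsum with h | h
        · exact absurd h (mul_ne_zero two_ne_zero hne)
        · exact h
      have hW0 : ∀ y, 0 ≤ W y := by
        intro y
        have h2 : |⟪(e : E5), (y : E5)⟫_ℝ| ≤ 1 := by
          have := abs_real_inner_le_norm (e : E5) (y : E5)
          rwa [S4_norm, S4_norm, one_mul] at this
        have h3 : 0 ≤ 1 - ⟪(e : E5), (y : E5)⟫_ℝ ^ 2 := by
          have := abs_le.1 h2
          nlinarith
        exact mul_nonneg (div_nonneg h3 (t1 y).1.le) (hfp y).le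
      have h2 := (integral_eq_zero_iff_of_nonneg hW0 (cint hWc)).1 h1
      have h3 : W = fun _ => 0 := (hWc.ae_eq_iff_eq sig continuous_const).1 h2
      obtain ⟨y, hy⟩ := exists_orth e
      have h4 := congrFun h3 y
      rw [hW] at h4
      simp only [hy] at h4
      have h5 := hfp y
      have h6 : (1 - (0 : ℝ) ^ 2) / (1 + s ^ 2 - 2 * s * 0) * f y > 0 := by
        have : (0 : ℝ) < 1 + s ^ 2 - 2 * s * 0 := by nlinarith [sq_nonneg s]
        positivity
      rw [h4] at h6
      exact lt_irrefl _ h6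
    subst hs0
    intro x
    have hJ : capJ e 0 x = 1 := by
      unfold capJ
      norm_num
    refine ⟨?_, hJ⟩
    have h1 := hall x
    unfold ftau at h1
    rw [hJ, one_pow, mul_one] at h1
    exact h1
  -- constant
  have hconst : ∀ x y : S4, f x = f y := by
    intro x y
    by_cases hxy : x = y
    · rw [hxy]
    have hd : (x : E5) - (y : E5) ≠ 0 := fun h => hxy (Subtype.ext (sub_eq_zero.1 h))
    set e : S4 := ⟨‖(x : E5) - (y : E5)‖⁻¹ • ((x : E5) - (y : E5)), normalize_mem hd⟩ with he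
    have h1 := (hinv e x).1
    have htau : tau e 0 x = y := by
      obtain ⟨t1, -⟩ := tau_ e 0 (by norm_num) (by norm_num)
      apply Subtype.ext
      rw [(t1 x).2.2]
      unfold tauE
      have hn : ‖(x : E5) - (y : E5)‖ ≠ 0 := norm_ne_zero_iff.2 hd
      have hx1 : ⟪(x : E5), (x : E5)⟫_ℝ = 1 := by
        rw [real_inner_self_eq_norm_sq, S4_norm]; norm_num
      have hy1 : ⟪(y : E5), (y : E5)⟫_ℝ = 1 := by
        rw [real_inner_self_eq_norm_sq, S4_norm]; norm_num
      have hnsq : ‖(x : E5) - (y : E5)‖ ^ 2 = 2 * (1 - ⟪(x : E5), (y : E5)⟫_ℝ) := by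
        rw [← real_inner_self_eq_norm_sq, inner_sub_left, inner_sub_right, inner_sub_right, hx1, hy1,
          real_inner_comm (x : E5) (y : E5)]
        ring
      have hin : ⟪(e : E5), (x : E5)⟫_ℝ = ‖(x : E5) - (y : E5)‖ / 2 := by
        show ⟪‖(x : E5) - (y : E5)‖⁻¹ • ((x : E5) - (y : E5)), (x : E5)⟫_ℝ = _
        rw [real_inner_smul_left, inner_sub_left, hx1, real_inner_comm (x : E5) (y : E5)]
        field_simp
        linarith
      rw [hin]
      have e1 : (1 + (0 : ℝ) ^ 2 - 2 * 0 * (‖(x : E5) - (y : E5)‖ / 2)) = 1 := by ring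
      rw [e1, inv_one, one_smul]
      show (1 - (0 : ℝ) ^ 2) • (x : E5) - (2 * (‖(x : E5) - (y : E5)‖ / 2 - 0)) •
        (‖(x : E5) - (y : E5)‖⁻¹ • ((x : E5) - (y : E5))) = (y : E5)
      rw [smul_smul]
      have e2 : 2 * (‖(x : E5) - (y : E5)‖ / 2 - 0) * ‖(x : E5) - (y : E5)‖⁻¹ = 1 := by
        field_simp
        ring
      rw [e2]
      have e3 : (1 - (0 : ℝ) ^ 2) = 1 := by norm_num
      rw [e3, one_smul, one_smul]
      abel
    rw [htau] at h1
    exact h1
  intro x
  have h1 : ∫ y, f y ∂sig = f x * msig := by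
    have h2 : f = fun _ => f x := funext fun y => hconst y x
    rw [h2]
    have h3 := avg_const (f x)
    unfold avg at h3
    rw [div_eq_iff msig_ne] at h3
    exact h3
  rw [hf1] at h1
  rw [eq_div_iff msig_ne]
  exact h1.symm

end Pool.Agent.PQP.H21
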