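import Pool.Agent.Helper21_PQP.Windex
import Pool.Agent.Helper25_PQP.D2
import Pool.Agent.Helper27_PQP.MDC
import Pool.Agent.Helper25_PQP.LFT
import Pool.Agent.Helper41_PQP.SNE

/-!
# Squad PQP: the index theorem on the fixed circle (helper21)

`Q > 0` invariant under the reflection which fixes the plane `P2`, critical points on the circle
finite in number and with `Δ Q ≠ 0`. If the number of local maxima of `Q` on the circle with `Δ Q < 0` is not
equal to `1` plus the number of local minima of `Q` on the circle with `Δ Q < 0` then `Q` is a Paneitz curvature.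
-/

set_option autoImplicit false

open scoped InnerProductSpace Topology ContDiff Manifold
open MeasureTheory Filter Set

noncomputable section

namespace Pool.Agent.PQP.Idx

open Pool.Agent.Helper42_Paneitz Pool.Agent.Helper82_Vir Pool.Agent.FLX Pool.Agent.PQP
open Pool.Agent.PQP.H25

theorem coe_cid (φ : ℝ) : cid φ = (-(Real.sin φ)) • ee 4 + Real.cos φ • ee 0 := rfl

/-- derivative along the circle -/
theorem hasDerivAt_cir {f : S4 → ℝ} (hf : Sm f) (φ : ℝ) :
    HasDerivAt (fun t => f (cir t)) (dd f (cir φ) (cid φ)) φ := by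
  have h1 : HasFDerivAt (radialExt f) (fderiv ℝ (radialExt f) (cir φ : E5)) (cir φ : E5) :=
    (sm_diffAt hf (S4_ne_zero _)).hasFDerivAt
  have h2 : HasDerivAt (fun t : ℝ => Real.cos t • ee 4 + Real.sin t • ee 0) (cid φ) φ := by
    rw [coe_cid]
    exact ((Real.hasDerivAt_cos φ).smul_const _).add ((Real.hasDerivAt_sin φ).smul_const _)
  have h3 := h1.comp_hasDerivAt φ h2
  refine h3.congr_of_eventuallyEq (Eventually.of_forall fun t => ?_)
  show f (cir t) = radialExt f (Real.cos t • ee 4 + Real.sin t • ee 0)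
  rw [← coe_cir, radialExt_coe]

theorem continuous_cir : Continuous cir := by
  refine Continuous.subtype_mk ?_ _
  exact (Real.continuous_cos.smul continuous_const).add
    (Real.continuous_sin.smul continuous_const)

/-- the derivative along the circle in terms of the two directions -/
theorem dd_cid (f : S4 → ℝ) (φ : ℝ) : dd f (cir φ) (cid φ) =
    -(Real.sin φ) * dd f (cir φ) (ee 4) + Real.cos φ * dd f (cir φ) (ee 0) := by
  rw [coe_cid, dd_add, dd_smul, dd_smul]

theorem continuous_dd_cid {f : S4 → ℝ} (hf : Sm f) :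
    Continuous fun φ => dd f (cir φ) (cid φ) := by
  have h : (fun φ => dd f (cir φ) (cid φ)) = fun φ =>
      -(Real.sin φ) * dd f (cir φ) (ee 4) + Real.cos φ * dd f (cir φ) (ee 0) :=
    funext fun φ => dd_cid f φ
  rw [h]
  have h4 : Continuous fun φ => dd f (cir φ) (ee 4) :=
    (continuous_of_sm (sm_dd hf (ee 4))).comp continuous_cir
  have h0 : Continuous fun φ => dd f (cir φ) (ee 0) :=
    (continuous_of_sm (sm_dd hf (ee 0))).comp continuous_cir
  exact (Real.continuous_sin.neg.mul h4).add (Real.continuous_cos.mul h0)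

/-- second derivative along the circle -/
def d2c (f : S4 → ℝ) (φ : ℝ) : ℝ :=
  (-(Real.cos φ) * dd f (cir φ) (ee 4) +
    -(Real.sin φ) * dd (fun z => dd f z (ee 4)) (cir φ) (cid φ)) +
  (-(Real.sin φ) * dd f (cir φ) (ee 0) +
    Real.cos φ * dd (fun z => dd f z (ee 0)) (cir φ) (cid φ))

theorem hasDerivAt_dd_cid {f : S4 → ℝ} (hf : Sm f) (φ : ℝ) :
    HasDerivAt (fun φ => dd f (cir φ) (cid φ)) (d2c f φ) φ := by
  have h : (fun φ => dd f (cir φ) (cid φ)) = fun φ =>
      -(Real.sin φ) * dd f (cir φ) (ee 4) + Real.cos φ * dd f (cir φ) (ee 0) :=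
    funext fun φ => dd_cid f φ
  rw [h]
  exact ((Real.hasDerivAt_sin φ).neg.mul (hasDerivAt_cir (sm_dd hf (ee 4)) φ)).add
    ((Real.hasDerivAt_cos φ).mul (hasDerivAt_cir (sm_dd hf (ee 0)) φ))

theorem continuous_d2c {f : S4 → ℝ} (hf : Sm f) : Continuous (d2c f) := by
  have h4 : Continuous fun φ => dd f (cir φ) (ee 4) :=
    (continuous_of_sm (sm_dd hf (ee 4))).comp continuous_cir
  have h0 : Continuous fun φ => dd f (cir φ) (ee 0) :=
    (continuous_of_sm (sm_dd hf (ee 0))).comp continuous_cir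
  have k4 := continuous_dd_cid (sm_dd hf (ee 4))
  have k0 := continuous_dd_cid (sm_dd hf (ee 0))
  unfold d2c
  exact ((Real.continuous_cos.neg.mul h4).add (Real.continuous_sin.neg.mul k4)).add
    ((Real.continuous_sin.neg.mul h0).add (Real.continuous_cos.mul k0))

theorem cir_mem (φ : ℝ) : (cir φ : E5) ∈ P2 := by
  rw [coe_cir]
  exact mem_P2 _ _

theorem cir_per (φ : ℝ) : cir (φ + 2 * Real.pi) = cir φ := by
  apply Subtype.ext
  rw [coe_cir, coe_cir, Real.cos_add_two_pi, Real.sin_add_two_pi]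

theorem cid_per (φ : ℝ) : cid (φ + 2 * Real.pi) = cid φ := by
  rw [coe_cid, coe_cid, Real.cos_add_two_pi, Real.sin_add_two_pi]

/-- on the circle, critical along the circle is critical -/
theorem crit_of {f : S4 → ℝ} (hf : Sm f) (hi : Inv P2 f) {φ : ℝ}
    (h : dd f (cir φ) (cid φ) = 0) : Crit f (cir φ) := by
  have hgd : gd f (cir φ) ∈ P2 := H27.gd_mem hf hi (cir_mem φ)
  obtain ⟨a, c, hac⟩ := exists_P2 hgd
  have horth : ⟪(cir φ : E5), gd f (cir φ)⟫_ℝ = 0 := by
    rw [inner_gd]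
    exact dd_self hf _
  have hgd2 := inner_cir_cid φ a c _ hac horth
  rw [inner_gd, h, zero_smul] at hgd2
  intro v
  rw [← inner_gd, hgd2, inner_zero_right]

/-- the Laplacian of a positive function at a critical point, from that of the logarithm -/
theorem lap_log {Q : S4 → ℝ} (hQ : Sm Q) (hp : ∀ x, 0 < Q x) {p : S4}
    (h : Crit (fun z => Real.log (Q z)) p) :
    sphLaplacian Q p = Q p * sphLaplacian (fun z => Real.log (Q z)) p := by
  have hq := H41.sm_log hQ hp
  have hterm : ∀ i : Fin 5, dd (fun z => dd Q z (ee i)) p (ee i) =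
      Q p * dd (fun z => dd (fun z => Real.log (Q z)) z (ee i)) p (ee i) := by
    intro i
    have e : (fun z => dd Q z (ee i)) = fun z => Q z * dd (fun z => Real.log (Q z)) z (ee i) := by
      funext z; exact H41.dd_eq_mul_dlog hQ hp z _
    rw [e, dd_mul hQ (sm_dd hq (ee i)), h (ee i), zero_mul, add_zero]
  rw [sphLaplacian_eq hQ, Finset.sum_congr rfl fun i _ => hterm i, ← Finset.mul_sum,
    ← sphLaplacian_eq hq]

/-- IDX -/
def IdxStmt : Prop :=
  ∀ Q : S4 → ℝ, Sm Q → (∀ x, 0 < Q x) → Inv P2 Q →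
    {φ : ℝ | φ ∈ Ico 0 (2 * Real.pi) ∧ dd Q (cir φ) (cid φ) = 0}.Finite →
    (∀ φ : ℝ, dd Q (cir φ) (cid φ) = 0 → sphLaplacian Q (cir φ) ≠ 0) →
    {φ : ℝ | φ ∈ Ico 0 (2 * Real.pi) ∧ IsLocalMax (fun t => Q (cir t)) φ ∧
        sphLaplacian Q (cir φ) < 0}.ncard ≠
      {φ : ℝ | φ ∈ Ico 0 (2 * Real.pi) ∧ IsLocalMin (fun t => Q (cir t)) φ ∧
        sphLaplacian Q (cir φ) < 0}.ncard + 1 →
    IsPaneitzCurvature Q

theorem idx (d2 : D2Stmt) : IdxStmt := by
  classical
  intro Q hQ hpos hInv hfin hnd hne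
  set ψ : S4 → ℝ := fun z => Real.log (Q z) with hψdef
  have hψ : Sm ψ := H41.sm_log hQ hpos
  have hψI : Inv P2 ψ := by
    intro x
    show Real.log (Q (act P2.reflection x)) = Real.log (Q x)
    rw [hInv x]
  have hdd : ∀ φ, dd Q (cir φ) (cid φ) = Q (cir φ) * dd ψ (cir φ) (cid φ) := fun φ =>
    H41.dd_eq_mul_dlog hQ hpos _ _
  have hdd0 : ∀ φ, dd Q (cir φ) (cid φ) = 0 ↔ dd ψ (cir φ) (cid φ) = 0 := by
    intro φ
    rw [hdd, mul_eq_zero]
    constructor
    · rintro (h | h)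
      · exact absurd h (hpos _).ne'
      · exact h
    · exact Or.inr
  have hlap : ∀ φ, dd ψ (cir φ) (cid φ) = 0 →
      sphLaplacian Q (cir φ) = Q (cir φ) * sphLaplacian ψ (cir φ) := fun φ h =>
    lap_log hQ hpos (crit_of hψ hψI h)
  set g : ℝ → ℝ := fun t => ψ (cir t) with hg
  set x : ℝ → ℝ := fun t => -(sphLaplacian ψ (cir t)) with hx
  set y : ℝ → ℝ := fun t => dd ψ (cir t) (cid t) with hy
  have hL : Sm (sphLaplacian ψ) := hψ.sphLaplacian
  -- the curve
  set γ : ℝ → ℂ := fun t => (x t : ℂ) + (y t : ℂ) * Complex.I with hγ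
  set γ' : ℝ → ℂ := fun t => ((-(dd (sphLaplacian ψ) (cir t) (cid t)) : ℝ) : ℂ) +
    (d2c ψ t : ℂ) * Complex.I with hγ'
  have hγd : ∀ t, HasDerivAt γ (γ' t) t := by
    intro t
    have h1 : HasDerivAt x (-(dd (sphLaplacian ψ) (cir t) (cid t))) t := (hasDerivAt_cir hL t).neg
    have h2 : HasDerivAt y (d2c ψ t) t := hasDerivAt_dd_cid hψ t
    exact h1.ofReal_comp.add (h2.ofReal_comp.mul_const _)
  have hγc : Continuous γ' := by
    have h1 : Continuous fun t => (-(dd (sphLaplacian ψ) (cir t) (cid t)) : ℝ) :=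
      (continuous_dd_cid hL).neg
    exact (Complex.continuous_ofReal.comp h1).add
      ((Complex.continuous_ofReal.comp (continuous_d2c hψ)).mul continuous_const)
  have hγre : ∀ t, (γ t).re = x t := by
    intro t
    simp [hγ]
  have hγim : ∀ t, (γ t).im = y t := by
    intro t
    simp [hγ]
  have hγ0 : ∀ t, γ t ≠ 0 := by
    intro t h0
    have h1 : x t = 0 := by rw [← hγre, h0]; rfl
    have h2 : y t = 0 := by rw [← hγim, h0]; rfl
    refine hnd t ((hdd0 t).2 h2) ?_
    rw [hlap t h2]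
    have h3 : sphLaplacian ψ (cir t) = 0 := neg_eq_zero.1 h1
    rw [h3, mul_zero]
  obtain ⟨r, α, hr, hα, hrp, hval⟩ := H25.lft γ γ' hγd hγc hγ0
  have hxv : ∀ t, x t = r t * Real.cos (α t) := by
    intro t
    rw [← hγre, hval, Complex.re_ofReal_mul, Complex.exp_ofReal_mul_I_re]
  have hyv : ∀ t, y t = r t * Real.sin (α t) := by
    intro t
    rw [← hγim, hval, Complex.im_ofReal_mul, Complex.exp_ofReal_mul_I_im]
  have D : Windex.Dat g x y α r :=
    ⟨hα, fun t => hasDerivAt_cir hψ t, continuous_dd_cid hψ, hrp, hxv, hyv⟩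
  refine (show (fun x => Real.exp (ψ x)) = Q from funext fun x => Real.exp_log (hpos x)) ▸
    d2 ψ r α hψ hψI hr hα (fun t => ⟨hrp t, hxv t, hyv t⟩) fun hcon => ?_
  -- zeros
  set Z : Finset ℝ := hfin.toFinset with hZdef
  have hZ : ∀ φ, φ ∈ Z ↔ φ ∈ Ico 0 (2 * Real.pi) ∧ y φ = 0 := by
    intro φ
    rw [hZdef, Set.Finite.mem_toFinset]
    show φ ∈ Ico 0 (2 * Real.pi) ∧ dd Q (cir φ) (cid φ) = 0 ↔ _
    rw [hdd0]
  have ht := D.total (fun t => by show -(sphLaplacian ψ (cir (t + 2 * Real.pi))) = _; rw [cir_per])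
    (fun t => by show dd ψ (cir (t + 2 * Real.pi)) (cid (t + 2 * Real.pi)) = _
                 rw [cir_per, cid_per]) Z hZ
  have hpi := Real.pi_pos
  have hsum : (∑ z ∈ Z, Windex.wt g x z : ℤ) = -1 := by
    have h1 : (2 * Real.pi) * ((∑ z ∈ Z, Windex.wt g x z : ℤ) : ℝ) = 2 * Real.pi * (-1) := by
      rw [← ht, hcon]
      ring
    have h2 : ((∑ z ∈ Z, Windex.wt g x z : ℤ) : ℝ) = ((-1 : ℤ) : ℝ) := by
      rw [mul_left_cancel₀ (by positivity) h1]
      push_cast
      ring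
    exact_mod_cast h2
  -- extrema of `g` and `Q`
  have hmaxI : ∀ φ, IsLocalMax g φ ↔ IsLocalMax (fun t => Q (cir t)) φ := by
    intro φ
    constructor
    · intro h
      filter_upwards [h] with t ht
      exact (Real.log_le_log_iff (hpos _) (hpos _)).1 ht
    · intro h
      filter_upwards [h] with t ht
      exact (Real.log_le_log_iff (hpos _) (hpos _)).2 ht
  have hminI : ∀ φ, IsLocalMin g φ ↔ IsLocalMin (fun t => Q (cir t)) φ := by
    intro φ
    constructor
    · intro h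
      filter_upwards [h] with t ht
      exact (Real.log_le_log_iff (hpos _) (hpos _)).1 ht
    · intro h
      filter_upwards [h] with t ht
      exact (Real.log_le_log_iff (hpos _) (hpos _)).2 ht
  have hy0max : ∀ φ, IsLocalMax g φ → y φ = 0 := fun φ h =>
    h.hasDerivAt_eq_zero (hasDerivAt_cir hψ φ)
  have hy0min : ∀ φ, IsLocalMin g φ → y φ = 0 := fun φ h =>
    h.hasDerivAt_eq_zero (hasDerivAt_cir hψ φ)
  have hsgn : ∀ φ, y φ = 0 → (0 < x φ ↔ sphLaplacian Q (cir φ) < 0) := by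
    intro φ h
    rw [hlap φ h]
    have h1 := hpos (cir φ)
    constructor
    · intro h2
      exact mul_neg_of_pos_of_neg h1 (neg_pos.1 h2)
    · intro h2
      have h3 : sphLaplacian ψ (cir φ) < 0 := by
        by_contra hn
        exact absurd h2 (not_lt.2 (mul_nonneg h1.le (not_lt.1 hn)))
      exact neg_pos.2 h3
  have emax : {φ : ℝ | φ ∈ Ico 0 (2 * Real.pi) ∧ IsLocalMax (fun t => Q (cir t)) φ ∧
        sphLaplacian Q (cir φ) < 0} = ↑(Z.filter fun z => IsLocalMax g z ∧ 0 < x z) := by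
    ext φ
    rw [Finset.coe_filter]
    show φ ∈ Ico 0 (2 * Real.pi) ∧ IsLocalMax (fun t => Q (cir t)) φ ∧
        sphLaplacian Q (cir φ) < 0 ↔ φ ∈ Z ∧ IsLocalMax g φ ∧ 0 < x φ
    rw [hZ]
    constructor
    · rintro ⟨h1, h2, h3⟩
      have h4 := (hmaxI φ).2 h2
      have h5 := hy0max φ h4
      exact ⟨⟨h1, h5⟩, h4, (hsgn φ h5).2 h3⟩
    · rintro ⟨⟨h1, h5⟩, h4, h6⟩
      exact ⟨h1, (hmaxI φ).1 h4, (hsgn φ h5).1 h6⟩
  have emin : {φ : ℝ | φ ∈ Ico 0 (2 * Real.pi) ∧ IsLocalMin (fun t => Q (cir t)) φ ∧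
        sphLaplacian Q (cir φ) < 0} = ↑(Z.filter fun z => IsLocalMin g z ∧ 0 < x z) := by
    ext φ
    rw [Finset.coe_filter]
    show φ ∈ Ico 0 (2 * Real.pi) ∧ IsLocalMin (fun t => Q (cir t)) φ ∧
        sphLaplacian Q (cir φ) < 0 ↔ φ ∈ Z ∧ IsLocalMin g φ ∧ 0 < x φ
    rw [hZ]
    constructor
    · rintro ⟨h1, h2, h3⟩
      have h4 := (hminI φ).2 h2
      have h5 := hy0min φ h4
      exact ⟨⟨h1, h5⟩, h4, (hsgn φ h5).2 h3⟩
    · rintro ⟨⟨h1, h5⟩, h4, h6⟩
      exact ⟨h1, (hminI φ).1 h4, (hsgn φ h5).1 h6⟩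
  rw [emax, emin, Set.ncard_coe_finset, Set.ncard_coe_finset] at hne
  have hw : (∑ z ∈ Z, Windex.wt g x z : ℤ) =
      ((Z.filter fun z => IsLocalMin g z ∧ 0 < x z).card : ℤ) -
      ((Z.filter fun z => IsLocalMax g z ∧ 0 < x z).card : ℤ) := by
    unfold Windex.wt
    rw [Finset.sum_sub_distrib, Finset.card_filter, Finset.card_filter]
    push_cast
    rfl
  rw [hw] at hsum
  omega

end Pool.Agent.PQP.Idx
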