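import Pool.Agent.Helper21_PQP.Dbq
import Pool.Agent.Helper21_PQP.Idx
import Pool.Agent.Helper7_PQP.D1
import Pool.Agent.Helper71_PQP.ZEX
import Pool.Agent.Helper3_PQP.ZIF

/-!
# Squad PQP: final forms of the symmetric theorems (helper21)
-/

set_option autoImplicit false

open scoped InnerProductSpace Topology ContDiff Manifold
open MeasureTheory Filter Set

noncomputable section

namespace Pool.Agent.PQP.FinZ

open Pool.Agent.Helper42_Paneitz Pool.Agent.Helper82_Vir Pool.Agent.FLX Pool.Agent.PQP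
open Pool.Agent.PQP.H25

/-! ### the reflection in the plane `P2` in coordinates -/

theorem ee4_mem : ee 4 ∈ P2 := Submodule.subset_span (by simp)
theorem ee0_mem : ee 0 ∈ P2 := Submodule.subset_span (by simp)

theorem refl_ee {i : Fin 5} (h4 : i ≠ 4) (h0 : i ≠ 0) : P2.reflection (ee i) = -ee i := by
  apply Submodule.reflection_mem_subspace_orthogonalComplement_eq_neg
  rw [Submodule.mem_orthogonal]
  intro u hu
  obtain ⟨a, b, rfl⟩ := exists_P2 hu
  rw [inner_add_left, inner_smul_left, inner_smul_left, inner_ee_ee (Ne.symm h4),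
    inner_ee_ee (Ne.symm h0)]
  simp

theorem inner_refl (v x : E5) : ⟪v, P2.reflection x⟫_ℝ = ⟪P2.reflection v, x⟫_ℝ := by
  have h := P2.reflection.inner_map_map v (P2.reflection x)
  rw [Submodule.reflection_reflection] at h
  exact h.symm

theorem refl_coord_neg (x : E5) {i : Fin 5} (h4 : i ≠ 4) (h0 : i ≠ 0) :
    (P2.reflection x) i = -x i := by
  rw [← inner_ee', inner_refl, refl_ee h4 h0, inner_neg_left, inner_ee']

theorem refl_coord_four (x : E5) : (P2.reflection x) 4 = x 4 := by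
  rw [← inner_ee', inner_refl, (Submodule.reflection_eq_self_iff _).2 ee4_mem, inner_ee']

theorem refl_coord_zero (x : E5) : (P2.reflection x) 0 = x 0 := by
  rw [← inner_ee', inner_refl, (Submodule.reflection_eq_self_iff _).2 ee0_mem, inner_ee']

/-- invariance in coordinates -/
theorem inv_of_flip {Q : S4 → ℝ}
    (h : ∀ x y : S4, (y : E5) 0 = (x : E5) 0 → (y : E5) 1 = -(x : E5) 1 →
      (y : E5) 2 = -(x : E5) 2 → (y : E5) 3 = -(x : E5) 3 → (y : E5) 4 = (x : E5) 4 → Q y = Q x) :
    Inv P2 Q := fun x =>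
  h x (act P2.reflection x) (refl_coord_zero _) (refl_coord_neg _ (by decide) (by decide))
    (refl_coord_neg _ (by decide) (by decide)) (refl_coord_neg _ (by decide) (by decide))
    (refl_coord_four _)

/-! ### the case of different signs at the poles -/

theorem p1_four (x : E5) : (P1.reflection x) 4 = x 4 := by
  have h4 : ee 4 ∈ P1 := Submodule.subset_span (by simp)
  have h := P1.reflection.inner_map_map (ee 4) x
  rw [(Submodule.reflection_eq_self_iff _).2 h4, inner_ee', inner_ee'] at h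
  exact h

/-- zonal functions whose profile has derivatives of different sign at `±1` -/
theorem opp (d1 : D1Stmt) (q : ℝ → ℝ) (hq : ContDiff ℝ ∞ q) (hpos : ∀ s ∈ Icc (-1 : ℝ) 1, 0 < q s)
    (h : deriv q 1 * deriv q (-1) < 0) : IsPaneitzCurvature (fun x : S4 => q ((x : E5) 4)) := by
  have hq' : ContDiff ℝ ∞ (deriv q) := (contDiff_infty_iff_deriv.1 hq).2
  have hdq : ∀ c, HasDerivAt q (deriv q c) c := fun c =>
    ((hq.differentiable (by simp)) c).hasDerivAt
  have hdq' : ∀ c, HasDerivAt (deriv q) (deriv (deriv q) c) c := fun c =>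
    ((hq'.differentiable (by simp)) c).hasDerivAt
  set U : Set ℝ := {c | 0 < q c} with hUdef
  have hUo : IsOpen U := isOpen_lt continuous_const hq.continuous
  have hU : ∀ x : S4, ⟪ee 4, (x : E5)⟫_ℝ ∈ U := by
    intro x
    rw [inner_ee']
    exact hpos _ (H71.coord_mem x)
  have hF : ContDiffOn ℝ ∞ (fun c => Real.log (q c)) U :=
    hq.contDiffOn.log fun c hc => (show 0 < q c from hc).ne'
  have hF1 : ∀ c ∈ U, HasDerivAt (fun c => Real.log (q c)) (H71.F1 q c) c := by
    intro c hc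
    exact (hdq c).log (show 0 < q c from hc).ne'
  have hF2 : ∀ c ∈ U, HasDerivAt (H71.F1 q) (H71.F2 q c) c := by
    intro c hc
    exact (hdq' c).div (hdq c) (show 0 < q c from hc).ne'
  obtain ⟨hSm, hLap⟩ := sphLaplacian_zonal (ee 4) U hUo hU (fun c => Real.log (q c)) (H71.F1 q)
    (H71.F2 q) hF hF1 hF2
  set ψ : S4 → ℝ := fun x => Real.log (q ((x : E5) 4)) with hψdef
  have hψe : (fun x : S4 => (fun c => Real.log (q c)) ⟪ee 4, (x : E5)⟫_ℝ) = ψ := by
    funext x
    simp only [hψdef, inner_ee']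
  rw [hψe] at hSm hLap
  have hInv : Inv P1 ψ := by
    intro x
    show Real.log (q (((act P1.reflection x : S4) : E5) 4)) = Real.log (q ((x : E5) 4))
    rw [show ((act P1.reflection x : S4) : E5) 4 = (x : E5) 4 from p1_four _]
  have he4 : ee 4 (4 : Fin 5) = 1 := by
    rw [← inner_ee', real_inner_self_eq_norm_sq, norm_ee, one_pow]
  have hN : ((pt 4 : S4) : E5) 4 = 1 := he4
  set S : S4 := ⟨-((pt 4 : S4) : E5), by rw [mem_sphere_zero_iff_norm, norm_neg, S4_norm]⟩ with hS
  have hS4 : ((S : S4) : E5) 4 = -1 := by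
    show (-((pt 4 : S4) : E5)) 4 = -1
    rw [PiLp.neg_apply, hN]
  have hLN : sphLaplacian ψ (pt 4) = -4 * H71.F1 q 1 := by
    rw [hLap]
    simp only [inner_ee', norm_ee, hN, one_pow]
    ring
  have hLS : sphLaplacian ψ S = 4 * H71.F1 q (-1) := by
    rw [hLap]
    simp only [inner_ee', norm_ee, hS4, one_pow]
    ring
  have hq1 : 0 < q 1 := hpos 1 ⟨by norm_num, le_rfl⟩
  have hqm : 0 < q (-1) := hpos (-1) ⟨le_rfl, by norm_num⟩
  have h1 := d1 ψ S hSm hInv rfl (by
    rw [hLN, hLS]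
    unfold H71.F1
    have e : -4 * (deriv q 1 / q 1) * (4 * (deriv q (-1) / q (-1))) =
        -(16 / (q 1 * q (-1))) * (deriv q 1 * deriv q (-1)) := by
      field_simp
      ring
    rw [e]
    exact mul_pos_of_neg_of_neg (neg_neg_of_pos (by positivity)) h)
  have he : (fun x : S4 => Real.exp (ψ x)) = fun x : S4 => q ((x : E5) 4) := by
    funext x
    exact Real.exp_log (hpos _ (H71.coord_mem x))
  rw [← he]
  exact h1

/-- ZIQ: zonal functions -/
theorem ziq (d1 : D1Stmt) (zif : ZifStmt) (q : ℝ → ℝ) (hq : ContDiff ℝ ∞ q)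
    (hpos : ∀ s ∈ Icc (-1 : ℝ) 1, 0 < q s) (h1 : deriv q 1 ≠ 0) (hm : deriv q (-1) ≠ 0)
    (hnd : 0 < deriv q 1 * deriv q (-1) →
      ∀ s ∈ Ioo (-1 : ℝ) 1, deriv q s = 0 → deriv (deriv q) s ≠ 0) :
    IsPaneitzCurvature (fun x : S4 => q ((x : E5) 4)) ↔ ∃ s ∈ Ioo (-1 : ℝ) 1, deriv q s = 0 := by
  rcases lt_or_gt_of_ne (mul_ne_zero h1 hm) with h | h
  · have hcont : Continuous (deriv q) := (contDiff_infty_iff_deriv.1 hq).2.continuous
    have hzero : ∃ s ∈ Ioo (-1 : ℝ) 1, deriv q s = 0 := by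
      rcases lt_or_gt_of_ne h1 with h2 | h2
      · have h3 : 0 < deriv q (-1) := by
          by_contra hn
          nlinarith [mul_nonneg_of_nonpos_of_nonpos h2.le (not_lt.1 hn)]
        obtain ⟨s, hs, he⟩ := intermediate_value_Ioo' (show (-1 : ℝ) ≤ 1 by norm_num)
          hcont.continuousOn ⟨h2, h3⟩
        exact ⟨s, hs, he⟩
      · have h3 : deriv q (-1) < 0 := by
          by_contra hn
          nlinarith [mul_nonneg h2.le (not_lt.1 hn)]
        obtain ⟨s, hs, he⟩ := intermediate_value_Ioo (show (-1 : ℝ) ≤ 1 by norm_num)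
          hcont.continuousOn ⟨h3, h2⟩
        exact ⟨s, hs, he⟩
    exact ⟨fun _ => hzero, fun _ => opp d1 q hq hpos h⟩
  · exact zif q hq hpos h1 hm (hnd h)

end Pool.Agent.PQP.FinZ
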