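import Pool.Agent.PQP.StmtsZ

set_option autoImplicit false

open scoped InnerProductSpace Topology ContDiff Manifold
open MeasureTheory Filter Set

noncomputable section

namespace Pool.Agent.PQP.H21

open Pool.Agent.Helper42_Paneitz Pool.Agent.Helper82_Vir Pool.Agent.FLX Pool.Agent.PQP

theorem isClosed_dir (P : Submodule ℝ E5) : IsClosed {p : S4 | (p : E5) ∈ P} := by
  have h : IsClosed (P : Set E5) := P.closed_of_finiteDimensional
  exact h.preimage continuous_subtype_val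

theorem exists_dir {P : Submodule ℝ E5} (hP : P ≠ ⊥) (z : P) :
    ∃ (w : S4) (l : ℝ), (w : E5) ∈ P ∧ 0 ≤ l ∧ l = ‖z‖ ∧ (z : E5) = l • (w : E5) := by
  by_cases hz : z = 0
  · obtain ⟨v, hv, hv0⟩ := Submodule.exists_mem_ne_zero_of_ne_bot hP
    have hn : ‖v‖ ≠ 0 := norm_ne_zero_iff.2 hv0
    refine ⟨⟨‖v‖⁻¹ • v, ?_⟩, 0, P.smul_mem _ hv, le_refl _, ?_, ?_⟩
    · rw [mem_sphere_zero_iff_norm, norm_smul, norm_inv, norm_norm, inv_mul_cancel₀ hn]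
    · rw [hz, norm_zero]
    · rw [hz, zero_smul]; rfl
  · have hz' : (z : E5) ≠ 0 := fun h => hz (Subtype.ext h)
    have hn : ‖(z : E5)‖ ≠ 0 := norm_ne_zero_iff.2 hz'
    refine ⟨⟨‖(z : E5)‖⁻¹ • (z : E5), ?_⟩, ‖(z : E5)‖, P.smul_mem _ z.2, norm_nonneg _, rfl, ?_⟩
    · rw [mem_sphere_zero_iff_norm, norm_smul, norm_inv, norm_norm, inv_mul_cancel₀ hn]
    · show (z : E5) = ‖(z : E5)‖ • (‖(z : E5)‖⁻¹ • (z : E5))
      rw [smul_smul, mul_inv_cancel₀ hn, one_smul]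

theorem log_msig {u : ℝ} : Real.log (msig * (Real.exp u / msig)) = u := by
  have h := msig_pos
  rw [mul_div_cancel₀ _ h.ne', Real.log_exp]

theorem norm_lt_of {P : Submodule ℝ E5} (h : EE P)
    (H : ∀ x, |(h : C(S4, ℝ)) x| < 1) : ‖h‖ < 1 := by
  show ‖(h : C(S4, ℝ))‖ < 1
  rw [ContinuousMap.norm_lt_iff _ one_pos]
  intro x
  rw [Real.norm_eq_abs]
  exact H x

theorem nsm {P : Submodule ℝ E5} (r : ℝ) (h : EE P) : ‖r • h‖ = |r| * ‖h‖ :=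
  norm_smul r (h : C(S4, ℝ))

theorem abs_le_norm {P : Submodule ℝ E5} (h : EE P) (x : S4) :
    |(h : C(S4, ℝ)) x| ≤ ‖h‖ := by
  rw [← Real.norm_eq_abs]
  exact ContinuousMap.norm_coe_le_norm (h : C(S4, ℝ)) x

/-- the four homotopies, abstract form -/
theorem homotopies (hmt : HmtStmt) (P E : Type) [NormedAddCommGroup P] [NormedSpace ℝ P]
    [NormedAddCommGroup E] [NormedSpace ℝ E] (β : ℝ × (P × E) → P) (T : ℝ × (P × E) → E)
    (m : P → P) (t₀ R₀ M : ℝ) (ht₀ : 0 < t₀) (ht1 : t₀ ≤ 1) (hR₀ : 0 < R₀) (hMR : R₀ ≤ M)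
    (hβc : ContinuousOn β (Icc (0 : ℝ) 1 ×ˢ Dm P E)) (hT : Cmp (Icc (0 : ℝ) 1 ×ˢ Dm P E) T)
    (mc : Continuous m)
    (ha : ∀ z h, ‖z‖ ≤ 1 → ‖h‖ ≤ 1 → β (1, (z, h)) = 0 → h = T (1, (z, h)) → False)
    (hb : ∀ t, t₀ ≤ t → t ≤ 1 → ∀ z h, ‖z‖ ≤ 1 → ‖h‖ ≤ 1 → β (t, (z, h)) = 0 →
      h = T (t, (z, h)) → ‖z‖ < 1 ∧ ‖h‖ < 1)
    (hc : ∀ r, R₀ ≤ r → r ≤ M → ∀ z h, ‖z‖ ≤ 1 → ‖h‖ ≤ 1 → β (t₀, (z, (r / M) • h)) = 0 →
      h = (M / r) • T (t₀, (z, (r / M) • h)) → ‖z‖ < 1 ∧ ‖h‖ < 1)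
    (hd : ∀ s : ℝ, 0 ≤ s → s ≤ 1 → ∀ z h, ‖z‖ ≤ 1 → ‖h‖ ≤ 1 → β (t₀, (z, (R₀ / M) • h)) = 0 →
      h = (s * (M / R₀)) • T (t₀, (z, (R₀ / M) • h)) → ‖z‖ < 1 ∧ ‖h‖ < 1)
    (he : ∀ s : ℝ, 0 ≤ s → s ≤ 1 → ∀ z, ‖z‖ = 1 →
      s • ((1 / (6 * t₀)) • β (t₀, (z, (R₀ / M) • (0 : E)))) + (1 - s) • m z ≠ 0) :
    Ine (fun z : P × E => m z.1) (fun _ => 0) := by
  obtain ⟨hTc, KT, hKT, hTK⟩ := hT
  have hM : 0 < M := hR₀.trans_le hMR
  have ht01 : t₀ ∈ Icc (0 : ℝ) 1 := ⟨ht₀.le, ht1⟩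
  -- continuity of the scaling
  have hsc : ∀ a : ℝ × (P × E) → ℝ, Continuous a →
      (∀ q ∈ Icc (0 : ℝ) 1 ×ˢ Dm P E, 0 ≤ a q ∧ a q ≤ 1) →
      MapsTo (fun q : ℝ × (P × E) => ((t₀, (q.2.1, a q • q.2.2)) : ℝ × (P × E)))
        (Icc (0 : ℝ) 1 ×ˢ Dm P E) (Icc (0 : ℝ) 1 ×ˢ Dm P E) ∧
      Continuous (fun q : ℝ × (P × E) => ((t₀, (q.2.1, a q • q.2.2)) : ℝ × (P × E))) := by
    intro a ha' hab
    constructor
    · rintro ⟨s, z, h⟩ hq
      obtain ⟨h1, h2⟩ := hab _ hq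
      refine ⟨ht01, hq.2.1, ?_⟩
      show ‖a (s, (z, h)) • h‖ ≤ 1
      rw [norm_smul, Real.norm_eq_abs, abs_of_nonneg h1]
      have h3 : ‖h‖ ≤ 1 := hq.2.2
      nlinarith [norm_nonneg h]
    · exact continuous_const.prodMk (continuous_snd.fst.prodMk (ha'.smul continuous_snd.snd))
  -- compactness of a scaled map
  have hcs : ∀ (a k : ℝ × (P × E) → ℝ) (B : ℝ), Continuous a → Continuous k →
      (∀ q ∈ Icc (0 : ℝ) 1 ×ˢ Dm P E, 0 ≤ a q ∧ a q ≤ 1) →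
      (∀ q ∈ Icc (0 : ℝ) 1 ×ˢ Dm P E, k q ∈ Icc 0 B) →
      Cmp (Icc (0 : ℝ) 1 ×ˢ Dm P E) (fun q => k q • T (t₀, (q.2.1, a q • q.2.2))) := by
    intro a k B ha' hk hab hkB
    obtain ⟨h1, h2⟩ := hsc a ha' hab
    refine ⟨hk.continuousOn.smul (hTc.comp h2.continuousOn h1), ?_⟩
    refine ⟨(fun p : ℝ × E => p.1 • p.2) '' (Icc 0 B ×ˢ KT),
      (isCompact_Icc.prod hKT).image (continuous_fst.smul continuous_snd), ?_⟩
    intro q hq
    exact ⟨(k q, T (t₀, (q.2.1, a q • q.2.2))), ⟨hkB q hq, hTK _ (h1 hq)⟩, rfl⟩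
  -- step 0
  have I0 : Ine (fun z => β (1, z)) (fun z => T (1, z)) := by
    have h1m : (1 : ℝ) ∈ Icc (0 : ℝ) 1 := ⟨zero_le_one, le_refl _⟩
    have hci : Continuous fun z : P × E => ((1 : ℝ), z) := by fun_prop
    have hmi : MapsTo (fun z : P × E => ((1 : ℝ), z)) (Dm P E)
        (Icc (0 : ℝ) 1 ×ˢ Dm P E) := fun z hz => ⟨h1m, hz⟩
    refine ⟨fun z => β (1, z), fun z => T (1, z), hβc.comp hci.continuousOn hmi,
      ⟨hTc.comp hci.continuousOn hmi, KT, hKT, fun z hz => hTK _ (hmi hz)⟩,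
      fun z _ => ⟨rfl, rfl⟩, ?_⟩
    rintro ⟨z, h⟩ hz ⟨h1, h2⟩
    exact ha z h hz.1 hz.2 h1 h2
  -- step 1
  have I1 : Ine (fun z => β (t₀, z)) (fun z => T (t₀, z)) := by
    have hσ : ∀ s ∈ Icc (0 : ℝ) 1, t₀ + (1 - t₀) * s ∈ Icc t₀ 1 := by
      rintro s ⟨hs0, hs1⟩
      constructor <;> nlinarith
    have hci : Continuous fun q : ℝ × (P × E) => ((t₀ + (1 - t₀) * q.1, q.2) : ℝ × (P × E)) := by
      fun_prop
    have hmi : MapsTo (fun q : ℝ × (P × E) => ((t₀ + (1 - t₀) * q.1, q.2) : ℝ × (P × E)))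
        (Icc (0 : ℝ) 1 ×ˢ Dm P E) (Icc (0 : ℝ) 1 ×ˢ Dm P E) := by
      rintro ⟨s, z⟩ ⟨hs, hz⟩
      exact ⟨⟨ht₀.le.trans (hσ s hs).1, (hσ s hs).2⟩, hz⟩
    have h := hmt P E (fun q => β (t₀ + (1 - t₀) * q.1, q.2))
      (fun q => T (t₀ + (1 - t₀) * q.1, q.2)) (hβc.comp hci.continuousOn hmi)
      ⟨hTc.comp hci.continuousOn hmi, KT, hKT, fun q hq => hTK _ (hmi hq)⟩ ?_ ?_
    · simpa using h
    · rintro s hs ⟨z, h⟩ ⟨hz1, hz2, hz3⟩ ⟨h1, h2⟩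
      have ht := hσ s hs
      obtain ⟨k1, k2⟩ := hb _ ht.1 ht.2 z h hz1 hz2 h1 h2
      rcases hz3 with h3 | h3
      · exact absurd h3 k1.ne
      · exact absurd h3 k2.ne
    · simpa using I0
  -- step 2: the radius
  have I2 : Ine (fun z : P × E => β (t₀, (z.1, (R₀ / M) • z.2)))
      (fun z : P × E => (M / R₀) • T (t₀, (z.1, (R₀ / M) • z.2))) := by
    have hr : ∀ s ∈ Icc (0 : ℝ) 1, R₀ + (M - R₀) * s ∈ Icc R₀ M := by
      rintro s ⟨hs0, hs1⟩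
      constructor <;> nlinarith
    have hca : Continuous fun q : ℝ × (P × E) => (R₀ + (M - R₀) * q.1) / M := by fun_prop
    have hab : ∀ q ∈ Icc (0 : ℝ) 1 ×ˢ Dm P E, 0 ≤ (R₀ + (M - R₀) * q.1) / M ∧
        (R₀ + (M - R₀) * q.1) / M ≤ 1 := by
      intro q hq
      have h1 := hr q.1 hq.1
      exact ⟨div_nonneg (hR₀.le.trans h1.1) hM.le, (div_le_one hM).2 h1.2⟩
    have hck : Continuous fun q : ℝ × (P × E) => M / max R₀ (R₀ + (M - R₀) * q.1) := by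
      refine continuous_const.div (by fun_prop) fun q => ?_
      exact (lt_max_of_lt_left hR₀).ne'
    have hkB : ∀ q ∈ Icc (0 : ℝ) 1 ×ˢ Dm P E, M / max R₀ (R₀ + (M - R₀) * q.1) ∈
        Icc 0 (M / R₀) := by
      intro q _
      exact ⟨div_nonneg hM.le (lt_max_of_lt_left hR₀).le,
        div_le_div_of_nonneg_left hM.le hR₀ (le_max_left _ _)⟩
    obtain ⟨h1, h2⟩ := hsc _ hca hab
    have h := hmt P E (fun q => β (t₀, (q.2.1, ((R₀ + (M - R₀) * q.1) / M) • q.2.2)))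
      (fun q => (M / max R₀ (R₀ + (M - R₀) * q.1)) •
        T (t₀, (q.2.1, ((R₀ + (M - R₀) * q.1) / M) • q.2.2)))
      (hβc.comp h2.continuousOn h1) (hcs _ _ _ hca hck hab hkB) ?_ ?_
    · simpa using h
    · rintro s hs ⟨z, h⟩ ⟨hz1, hz2, hz3⟩ ⟨g1, g2⟩
      have ht := hr s hs
      obtain ⟨r, hrd⟩ : ∃ r, r = R₀ + (M - R₀) * s := ⟨_, rfl⟩
      rw [← hrd] at ht
      have g1' : β (t₀, (z, (r / M) • h)) = 0 := by rw [hrd]; exact g1
      have g2' : h = (M / r) • T (t₀, (z, (r / M) • h)) := by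
        have : h = (M / max R₀ (R₀ + (M - R₀) * s)) •
          T (t₀, (z, ((R₀ + (M - R₀) * s) / M) • h)) := g2
        rw [← hrd, max_eq_right ht.1] at this
        exact this
      obtain ⟨k1, k2⟩ := hc r ht.1 ht.2 z h hz1 hz2 g1' g2'
      rcases hz3 with h3 | h3
      · exact absurd h3 k1.ne
      · exact absurd h3 k2.ne
    · have e1 : R₀ + (M - R₀) * 1 = M := by ring
      simp only [e1, max_eq_right hMR, div_self hM.ne', one_smul]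
      exact I1
  -- step 3
  have hRM : 0 ≤ R₀ / M ∧ R₀ / M ≤ 1 := ⟨by positivity, (div_le_one hM).2 hMR⟩
  have hsc3 := hsc (fun _ => R₀ / M) continuous_const fun _ _ => hRM
  have I3 : Ine (fun z : P × E => (1 / (6 * t₀)) • β (t₀, (z.1, (R₀ / M) • z.2)))
      (fun _ : P × E => (0 : E)) := by
    have hck : Continuous fun q : ℝ × (P × E) => q.1 * (M / R₀) := by fun_prop
    have hkB : ∀ q ∈ Icc (0 : ℝ) 1 ×ˢ Dm P E, q.1 * (M / R₀) ∈ Icc 0 (M / R₀) := by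
      intro q hq
      have h1 : 0 ≤ M / R₀ := by positivity
      exact ⟨mul_nonneg hq.1.1 h1, mul_le_of_le_one_left h1 hq.1.2⟩
    have hcl : Continuous fun q : ℝ × (P × E) => q.1 + (1 - q.1) * (1 / (6 * t₀)) := by fun_prop
    have h := hmt P E (fun q => (q.1 + (1 - q.1) * (1 / (6 * t₀))) •
        β (t₀, (q.2.1, (R₀ / M) • q.2.2)))
      (fun q => (q.1 * (M / R₀)) • T (t₀, (q.2.1, (R₀ / M) • q.2.2)))
      (hcl.continuousOn.smul (hβc.comp hsc3.2.continuousOn hsc3.1))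
      (hcs _ _ _ continuous_const hck (fun _ _ => hRM) hkB) ?_ ?_
    · simpa using h
    · rintro s ⟨hs0, hs1⟩ ⟨z, h⟩ ⟨hz1, hz2, hz3⟩ ⟨g1, g2⟩
      have hlp : 0 < s + (1 - s) * (1 / (6 * t₀)) := by
        have h1 : 0 < 1 / (6 * t₀) := by positivity
        rcases hs0.lt_or_eq with h2 | h2
        · nlinarith
        · rw [← h2]; simpa using h1
      have g1' : β (t₀, (z, (R₀ / M) • h)) = 0 :=
        (smul_eq_zero.1 g1).resolve_left hlp.ne'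
      obtain ⟨k1, k2⟩ := hd s hs0 hs1 z h hz1 hz2 g1' g2
      rcases hz3 with h3 | h3
      · exact absurd h3 k1.ne
      · exact absurd h3 k2.ne
    · simpa using I2
  -- step 4
  have hc4 : ContinuousOn (fun q : ℝ × (P × E) => q.1 • ((1 / (6 * t₀)) •
      β (t₀, (q.2.1, (R₀ / M) • q.2.2))) + (1 - q.1) • m q.2.1)
      (Icc (0 : ℝ) 1 ×ˢ Dm P E) := by
    have h1 : ContinuousOn (fun q : ℝ × (P × E) => β (t₀, (q.2.1, (R₀ / M) • q.2.2)))
        (Icc (0 : ℝ) 1 ×ˢ Dm P E) := hβc.comp hsc3.2.continuousOn hsc3.1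
    have h2 : ContinuousOn (fun q : ℝ × (P × E) => q.1) (Icc (0 : ℝ) 1 ×ˢ Dm P E) :=
      continuous_fst.continuousOn
    have h3 : ContinuousOn (fun q : ℝ × (P × E) => m q.2.1)
        (Icc (0 : ℝ) 1 ×ˢ Dm P E) := (mc.comp continuous_snd.fst).continuousOn
    exact (h2.smul (h1.const_smul _)).add ((continuousOn_const.sub h2).smul h3)
  have h := hmt P E (fun q => q.1 • ((1 / (6 * t₀)) • β (t₀, (q.2.1, (R₀ / M) • q.2.2))) +
      (1 - q.1) • m q.2.1) (fun _ => 0) hc4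
    ⟨continuousOn_const, {0}, isCompact_singleton, fun q _ => rfl⟩ ?_ ?_
  · simpa using h
  · rintro s ⟨hs0, hs1⟩ ⟨z, h⟩ ⟨hz1, hz2, hz3⟩ ⟨g1, g2⟩
    have hh0 : h = 0 := g2
    have hz : ‖z‖ = 1 := by
      rcases hz3 with h3 | h3
      · exact h3
      · exfalso
        have : ‖h‖ = 1 := h3
        rw [hh0, norm_zero] at this
        exact zero_ne_one this
    refine he s hs0 hs1 z hz ?_
    have g3 : s • ((1 / (6 * t₀)) • β (t₀, (z, (R₀ / M) • h))) + (1 - s) • m z = 0 := g1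
    rwa [hh0] at g3
  · simpa using I3

/-- row ZAN -/
theorem zan (ctz : CtzStmt) (slz : SlzStmt) (pcz : PczStmt) (smt : SmtStmt) (srz : SrzStmt)
    (lhm : LhmStmt) (mdc : MdcStmt) (hmt : HmtStmt) (apr : AprStmt) : ZanStmt := by
  intro P ψ hψ hinv hP hcrit hness
  by_contra hno
  obtain ⟨ρ₀, B₀, hρ₀, hapr⟩ := apr ψ {p : S4 | (p : E5) ∈ P} hψ (isClosed_dir P)
    (fun p hp => hcrit p hp) 1 one_pos
  obtain ⟨ρ₁, hρ₁, hlhm⟩ := lhm P ψ hψ hcrit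
  obtain ⟨ρ, hρp, hρ1, hρ0ρ, hρ1ρ⟩ : ∃ ρ : ℝ, 0 < ρ ∧ ρ < 1 ∧ ρ₀ < ρ ∧ ρ₁ ≤ ρ := by
    have h1 : max (1 / 2) (max ρ₀ ρ₁) < 1 := max_lt (by norm_num) (max_lt hρ₀ hρ₁)
    have h2 : (1 : ℝ) / 2 ≤ max (1 / 2) (max ρ₀ ρ₁) := le_max_left _ _
    have h3 : ρ₀ ≤ max (1 / 2) (max ρ₀ ρ₁) := (le_max_left _ _).trans (le_max_right _ _)
    have h4 : ρ₁ ≤ max (1 / 2) (max ρ₀ ρ₁) := (le_max_right _ _).trans (le_max_right _ _)
    exact ⟨(1 + max (1 / 2) (max ρ₀ ρ₁)) / 2, by linarith, by linarith, by linarith, by linarith⟩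
  obtain ⟨c, hc, hlc⟩ := hlhm ρ hρ1ρ hρ1
  obtain ⟨m, hm0, hm⟩ := exists_bound (continuous_of_sm hψ)
  obtain ⟨R₀, C, hR₀, hC, hsrz⟩ := srz ψ hψ
  obtain ⟨τ, hτ, hsmt⟩ := smt ψ ρ R₀ hψ hρ1 hR₀
  obtain ⟨M, hMR, hMB⟩ : ∃ M : ℝ, R₀ ≤ M ∧ (B₀ + m) / 4 < M :=
    ⟨max R₀ ((B₀ + m) / 4 + 1), le_max_left _ _, lt_of_lt_of_le (by linarith) (le_max_right _ _)⟩
  have hM : 0 < M := hR₀.trans_le hMR
  obtain ⟨t₀, ht₀, htτ, ht1, htm, htR, htc⟩ : ∃ t₀ : ℝ, 0 < t₀ ∧ t₀ ≤ τ ∧ t₀ ≤ 1 ∧ t₀ * m < R₀ ∧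
      C * t₀ < R₀ ∧ C * t₀ < 6 * c := by
    refine ⟨min (min τ 1) (min (R₀ / (2 * (m + 1))) (min (R₀ / (2 * C)) (c / C))),
      lt_min (lt_min hτ one_pos) (lt_min (by positivity) (lt_min (by positivity) (by positivity))),
      (min_le_left _ _).trans (min_le_left _ _), (min_le_left _ _).trans (min_le_right _ _),
      ?_, ?_, ?_⟩
    · have h1 : min (min τ 1) (min (R₀ / (2 * (m + 1))) (min (R₀ / (2 * C)) (c / C))) ≤
          R₀ / (2 * (m + 1)) := (min_le_right _ _).trans (min_le_left _ _)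
      calc _ ≤ R₀ / (2 * (m + 1)) * m := mul_le_mul_of_nonneg_right h1 hm0
        _ = R₀ * (m / (2 * (m + 1))) := by ring
        _ < R₀ * 1 := by
            refine mul_lt_mul_of_pos_left ?_ hR₀
            rw [div_lt_one (by positivity)]; linarith
        _ = R₀ := mul_one _
    · have h1 : min (min τ 1) (min (R₀ / (2 * (m + 1))) (min (R₀ / (2 * C)) (c / C))) ≤
          R₀ / (2 * C) := (min_le_right _ _).trans ((min_le_right _ _).trans (min_le_left _ _))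
      calc _ ≤ C * (R₀ / (2 * C)) := mul_le_mul_of_nonneg_left h1 hC.le
        _ = R₀ / 2 := by field_simp
        _ < R₀ := by linarith
    · have h1 : min (min τ 1) (min (R₀ / (2 * (m + 1))) (min (R₀ / (2 * C)) (c / C))) ≤
          c / C := (min_le_right _ _).trans ((min_le_right _ _).trans (min_le_right _ _))
      calc _ ≤ C * (c / C) := mul_le_mul_of_nonneg_left h1 hC.le
        _ = c := by field_simp
        _ < 6 * c := by linarith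
  have ht01 : t₀ ∈ Icc (0 : ℝ) 1 := ⟨ht₀.le, ht1⟩
  obtain ⟨β, T, hform, hβc, hTc⟩ := ctz P ψ ρ M hψ hinv hρp hρ1 hM
  -- the parameter
  have hbn : ∀ z : P, ‖z‖ ≤ 1 → ‖ρ • (z : E5)‖ ≤ ρ := by
    intro z hz
    rw [norm_smul, Real.norm_eq_abs, abs_of_pos hρp]
    have h1 : ‖(z : E5)‖ ≤ 1 := hz
    nlinarith
  have hb1 : ∀ z : P, ‖z‖ ≤ 1 → ‖ρ • (z : E5)‖ < 1 := fun z hz => (hbn z hz).trans_lt hρ1
  -- analysis of zeros
  have K1 : ∀ t : ℝ, 0 < t → t ≤ 1 → ∀ z : P, ‖z‖ ≤ 1 → ∀ g : S4 → ℝ, Continuous g →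
      (∀ x, g x = Tf ψ t (ρ • (z : E5)) g x) → Bv ψ t (ρ • (z : E5)) g = 0 →
      ‖z‖ < 1 ∧ (∀ x, |t * ψ (mob (ρ • (z : E5)) x) + 4 * g x| ≤ B₀) ∧
        Sol (fun x => Real.exp (t * ψ (mob (ρ • (z : E5)) x)))
          (fun x => Real.exp (t * ψ (mob (ρ • (z : E5)) x) + 4 * g x) / msig) ∧
        Bal (fun x => Real.exp (t * ψ (mob (ρ • (z : E5)) x) + 4 * g x) / msig) := by
    intro t ht htle z hz g hg hT hB
    obtain ⟨-, hsol, hbal⟩ := slz ψ g t (ρ • (z : E5)) hψ hg (hb1 z hz) hT hB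
    obtain ⟨w, l, hw, hl0, hl, hzl⟩ := exists_dir hP z
    have e1 : ρ • (z : E5) = (ρ * l) • (w : E5) := by rw [hzl, smul_smul]
    have hll : ρ * l < 1 := by
      rw [hl]
      nlinarith
    have hsol' : Sol (fun x => Real.exp (t * ψ (mob ((ρ * l) • (w : E5)) x)))
        (fun x => Real.exp (t * ψ (mob (ρ • (z : E5)) x) + 4 * g x) / msig) := by
      rw [← e1]; exact hsol
    obtain ⟨h1, h2⟩ := hapr t (ρ * l) w _ ht htle hw (by positivity) hll hsol' hbal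
    refine ⟨?_, ?_, hsol, hbal⟩
    · rw [hl] at h1
      by_contra hcon
      have h3 : 1 ≤ ‖z‖ := not_lt.1 hcon
      nlinarith
    · intro x
      have := h2 x
      rw [log_msig] at this
      exact this
  -- no zero at the end
  have K2 : ∀ z : P, ‖z‖ ≤ 1 → ∀ g : S4 → ℝ, Continuous g →
      (∀ x, g x = Tf ψ 1 (ρ • (z : E5)) g x) → Bv ψ 1 (ρ • (z : E5)) g = 0 → False := by
    intro z hz g hg hT hB
    obtain ⟨hie, -, -⟩ := slz ψ g 1 (ρ • (z : E5)) hψ hg (hb1 z hz) hT hB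
    refine hno (pcz ψ g (ρ • (z : E5)) hψ (hb1 z hz) ?_)
    simpa only [one_mul] using hie
  -- smallness at `t₀`
  have K3 : ∀ z : P, ‖z‖ ≤ 1 → ∀ g : S4 → ℝ, Continuous g →
      (∀ x, g x = Tf ψ t₀ (ρ • (z : E5)) g x) → Bv ψ t₀ (ρ • (z : E5)) g = 0 →
      ‖z‖ < 1 ∧ ∀ x, |g x| < R₀ := by
    intro z hz g hg hT hB
    obtain ⟨h1, -, h3, h4⟩ := K1 t₀ ht₀ ht1 z hz g hg hT hB
    refine ⟨h1, fun x => ?_⟩
    have h5 := hsmt t₀ (ρ • (z : E5)) _ ht₀.le htτ (hbn z hz) h3 h4 x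
    rw [log_msig] at h5
    have h6 : |t₀ * ψ (mob (ρ • (z : E5)) x)| < R₀ := by
      rw [abs_mul, abs_of_pos ht₀]
      exact (mul_le_mul_of_nonneg_left (hm _) ht₀.le).trans_lt htm
    rw [abs_le] at h5
    rw [abs_lt] at h6 ⊢
    constructor <;> linarith [h5.1, h5.2, h6.1, h6.2]
  -- the form of the maps
  have F : ∀ t ∈ Icc (0 : ℝ) 1, ∀ (z : P) (h : EE P), ‖z‖ ≤ 1 → ‖h‖ ≤ 1 → ∀ r : ℝ, 0 < r → r ≤ M →
      ((z, (r / M) • h) : P × EE P) ∈ Dm P (EE P) ∧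
      (β (t, (z, (r / M) • h)) : E5) =
        Bv ψ t (ρ • (z : E5)) (fun x => r * (h : C(S4, ℝ)) x) ∧
      ∀ x, Tf ψ t (ρ • (z : E5)) (fun x => r * (h : C(S4, ℝ)) x) x =
        M * (T (t, (z, (r / M) • h)) : C(S4, ℝ)) x := by
    intro t ht z h hz hh r hr hrM
    have hmem : ((z, (r / M) • h) : P × EE P) ∈ Dm P (EE P) := by
      refine ⟨hz, ?_⟩
      show ‖(r / M) • h‖ ≤ 1
      rw [nsm, abs_of_pos (by positivity)]
      have h1 : r / M ≤ 1 := (div_le_one hM).2 hrM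
      have h2 : 0 ≤ r / M := by positivity
      nlinarith [norm_nonneg h]
    have e1 : (fun x => M * (((r / M) • h : EE P) : C(S4, ℝ)) x) =
        fun x => r * (h : C(S4, ℝ)) x := by
      funext x
      show M * ((r / M) * (h : C(S4, ℝ)) x) = r * (h : C(S4, ℝ)) x
      field_simp
    obtain ⟨h1, h2⟩ := hform t ht _ hmem
    refine ⟨hmem, ?_, fun x => ?_⟩
    · rw [h1]
      show Bv ψ t (ρ • (z : E5)) (fun x => M * (((r / M) • h : EE P) : C(S4, ℝ)) x) = _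
      rw [e1]
    · have h3 := h2 x
      have h4 : (T (t, (z, (r / M) • h)) : C(S4, ℝ)) x =
          M⁻¹ * Tf ψ t (ρ • (z : E5)) (fun x => r * (h : C(S4, ℝ)) x) x := by
        rw [h3]
        show M⁻¹ * Tf ψ t (ρ • (z : E5)) (fun x => M * (((r / M) • h : EE P) : C(S4, ℝ)) x) x = _
        rw [e1]
      rw [h4]
      field_simp
  have F1 : ∀ h : EE P, (M / M) • h = h := fun h => by rw [div_self hM.ne', one_smul]
  have hcont : ∀ (h : EE P) (r : ℝ), Continuous fun x => r * (h : C(S4, ℝ)) x := fun h r =>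
    continuous_const.mul (h : C(S4, ℝ)).continuous
  have hsup : ∀ (h : EE P) (r : ℝ), 0 < r → (∀ x, |r * (h : C(S4, ℝ)) x| < r) → ‖h‖ < 1 := by
    intro h r hr H
    refine norm_lt_of h fun x => ?_
    have h4 := H x
    rw [abs_mul, abs_of_pos hr] at h4
    by_contra hcon
    have h8 : 1 ≤ |(h : C(S4, ℝ)) x| := not_lt.1 hcon
    nlinarith
  obtain ⟨mc, mv⟩ := mdc P ψ hψ hinv
  apply hness
  refine homotopies hmt P (EE P) β T (mdl P ψ) t₀ R₀ M ht₀ ht1 hR₀ hMR hβc hTc mc ?_ ?_ ?_ ?_ ?_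
  · -- (a)
    intro z h hz hh h1 h2
    obtain ⟨-, f2, f3⟩ := F 1 ⟨zero_le_one, le_rfl⟩ z h hz hh M hM le_rfl
    rw [F1] at f2 f3
    refine K2 z hz (fun x => M * (h : C(S4, ℝ)) x) (hcont h M) ?_ ?_
    · intro x
      rw [f3 x, ← h2]
    · rw [← f2, h1]; rfl
  · -- (b)
    intro t htl htu z h hz hh h1 h2
    have htI : t ∈ Icc (0 : ℝ) 1 := ⟨ht₀.le.trans htl, htu⟩
    obtain ⟨-, f2, f3⟩ := F t htI z h hz hh M hM le_rfl
    rw [F1] at f2 f3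
    obtain ⟨k1, k2, -, -⟩ := K1 t (ht₀.trans_le htl) htu z hz
      (fun x => M * (h : C(S4, ℝ)) x) (hcont h M) (fun x => by rw [f3 x, ← h2])
      (by rw [← f2, h1]; rfl)
    refine ⟨k1, hsup h M hM fun x => ?_⟩
    have h4 := k2 x
    have h5 : |t * ψ (mob (ρ • (z : E5)) x)| ≤ m := by
      rw [abs_mul, abs_of_nonneg htI.1]
      calc _ ≤ 1 * m := mul_le_mul htI.2 (hm _) (abs_nonneg _) zero_le_one
        _ = m := one_mul _
    rw [abs_le] at h4 h5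
    rw [abs_lt]
    constructor <;> linarith [h4.1, h4.2, h5.1, h5.2]
  · -- (c)
    intro r hrl hru z h hz hh g1 g2
    have hr0 : 0 < r := hR₀.trans_le hrl
    obtain ⟨-, f2, f3⟩ := F _ ht01 z h hz hh r hr0 hru
    obtain ⟨k1, k2⟩ := K3 z hz (fun x => r * (h : C(S4, ℝ)) x) (hcont h r) (by
        intro x
        rw [f3 x]
        have h3 : (h : C(S4, ℝ)) x = (M / r) * (T (t₀, (z, (r / M) • h)) : C(S4, ℝ)) x :=
          congrArg (fun u : EE P => (u : C(S4, ℝ)) x) g2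
        rw [h3]
        field_simp) (by
        rw [← f2, g1]; rfl)
    exact ⟨k1, hsup h r hr0 fun x => (k2 x).trans_le hrl⟩
  · -- (d)
    intro s hs0 hs1 z h hz hh g1 g2
    obtain ⟨-, f2, f3⟩ := F _ ht01 z h hz hh R₀ hR₀ hMR
    have g3 : ∀ x, R₀ * (h : C(S4, ℝ)) x =
        s * Tf ψ t₀ (ρ • (z : E5)) (fun x => R₀ * (h : C(S4, ℝ)) x) x := by
      intro x
      rw [f3 x]
      have h3 : (h : C(S4, ℝ)) x = (s * (M / R₀)) *
          (T (t₀, (z, (R₀ / M) • h)) : C(S4, ℝ)) x :=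
        congrArg (fun u : EE P => (u : C(S4, ℝ)) x) g2
      rw [h3]
      field_simp
    obtain ⟨k1, k2⟩ := hsrz t₀ s (ρ • (z : E5)) (fun x => R₀ * (h : C(S4, ℝ)) x) ht₀.le ht1 hs0
      hs1 (hb1 z hz) (hcont h R₀) (fun x => by
        rw [abs_mul, abs_of_pos hR₀]
        have := (abs_le_norm h x).trans hh
        nlinarith [abs_nonneg ((h : C(S4, ℝ)) x)]) g3
    refine ⟨?_, hsup h R₀ hR₀ fun x => (k1 x).trans_lt htR⟩
    rcases hz.lt_or_eq with h3 | h3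
    · exact h3
    · exfalso
      have h4 := k2 1 zero_le_one le_rfl
      simp only [one_mul] at h4
      rw [← f2, g1] at h4
      obtain ⟨w, l, hw, hl0, hl, hzl⟩ := exists_dir hP z
      have hl1 : l = 1 := hl.trans h3
      rw [hl1, one_smul] at hzl
      have h5 := hlc w 0 hw le_rfl zero_le_one
      rw [sub_zero, one_smul, zero_smul, add_zero, ← hzl] at h5
      have h6 : ‖((0 : P) : E5) - (6 * t₀) • mo ψ (ρ • (z : E5))‖ =
          6 * t₀ * ‖mo ψ (ρ • (z : E5))‖ := by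
        rw [Submodule.coe_zero, zero_sub, norm_neg, norm_smul, Real.norm_eq_abs,
          abs_of_pos (by positivity)]
      rw [h6] at h4
      have h7 : 6 * ‖mo ψ (ρ • (z : E5))‖ ≤ C * t₀ := by
        have : t₀ * (6 * ‖mo ψ (ρ • (z : E5))‖) ≤ t₀ * (C * t₀) := by
          calc _ = 6 * t₀ * ‖mo ψ (ρ • (z : E5))‖ := by ring
            _ ≤ C * t₀ ^ 2 := h4
            _ = _ := by ring
        exact le_of_mul_le_mul_left this ht₀
      linarith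
  · -- (e)
    intro s hs0 hs1 z hz g0
    obtain ⟨w, l, hw, hl0, hl, hzl⟩ := exists_dir hP z
    have hl1 : l = 1 := hl.trans hz
    rw [hl1, one_smul] at hzl
    have hzne : (z : E5) ≠ 0 := by
      rw [hzl]; exact S4_ne_zero w
    have hnw : nrm (z : E5) = w := by
      apply Subtype.ext
      unfold nrm
      rw [dif_neg hzne]
      show ‖(z : E5)‖⁻¹ • (z : E5) = w
      have : ‖(z : E5)‖ = 1 := hz
      rw [this, inv_one, one_smul]; exact hzl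
    obtain ⟨-, f2, -⟩ := F _ ht01 z 0 hz.le
      ((norm_zero (E := C(S4, ℝ))).le.trans zero_le_one) R₀ hR₀ hMR
    have e0 : (fun x => R₀ * ((0 : EE P) : C(S4, ℝ)) x) = fun x => (0 : ℝ) := by
      funext x
      show R₀ * (0 : ℝ) = 0
      ring
    rw [e0] at f2
    obtain ⟨-, k2⟩ := hsrz t₀ 0 (ρ • (z : E5)) (fun _ => 0) ht₀.le ht1 le_rfl zero_le_one
      (hb1 z hz.le) continuous_const (fun x => by rw [abs_zero]; exact hR₀.le) (fun x => by ring)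
    have h4 := k2 0 le_rfl zero_le_one
    simp only [mul_zero] at h4
    rw [← f2] at h4
    obtain ⟨V, hV⟩ : ∃ V : E5, V = (β (t₀, (z, (R₀ / M) • (0 : EE P))) : E5) := ⟨_, rfl⟩
    rw [← hV] at h4
    have h5 := hlc w (1 - s) hw (by linarith) (by linarith)
    rw [sub_sub_cancel, ← hzl] at h5
    have g1' : s • ((1 / (6 * t₀)) • V) + (1 - s) • mw ψ w = 0 := by
      have g00 := congrArg (fun v : P => (v : E5)) g0
      simp only [Submodule.coe_add, Submodule.coe_smul, Submodule.coe_zero] at g00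
      rw [mv z, hnw, ← hV, hz, one_smul] at g00
      exact g00
    have h6 : ‖mo ψ (ρ • (z : E5)) - (1 / (6 * t₀)) • V‖ ≤ C * t₀ / 6 := by
      have e2 : mo ψ (ρ • (z : E5)) - (1 / (6 * t₀)) • V =
          -((1 / (6 * t₀)) • (V - (6 * t₀) • mo ψ (ρ • (z : E5)))) := by
        rw [smul_sub, smul_smul, one_div_mul_cancel (by positivity : (6 * t₀) ≠ 0), one_smul]
        abel
      rw [e2, norm_neg, norm_smul, Real.norm_eq_abs, abs_of_pos (by positivity)]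
      calc 1 / (6 * t₀) * ‖V - (6 * t₀) • mo ψ (ρ • (z : E5))‖ ≤ 1 / (6 * t₀) * (C * t₀ ^ 2) :=
            mul_le_mul_of_nonneg_left h4 (by positivity)
        _ = C * t₀ / 6 := by field_simp
    have h7 : s • mo ψ (ρ • (z : E5)) + (1 - s) • mw ψ w =
        s • (mo ψ (ρ • (z : E5)) - (1 / (6 * t₀)) • V) := by
      rw [smul_sub]
      have : (1 - s) • mw ψ w = -(s • ((1 / (6 * t₀)) • V)) := by
        rw [eq_neg_iff_add_eq_zero, add_comm]; exact g1'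
      rw [this]
      abel
    rw [h7, norm_smul, Real.norm_eq_abs, abs_of_nonneg hs0] at h5
    have h8 : s * ‖mo ψ (ρ • (z : E5)) - (1 / (6 * t₀)) • V‖ ≤ 1 * (C * t₀ / 6) :=
      mul_le_mul hs1 h6 (norm_nonneg _) zero_le_one
    linarith

end Pool.Agent.PQP.H21
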