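import Pool.Agent.PQP.Final
import Pool.Agent.FLX.Stmts
import Pool.Agent.Common_Brouwer.Schauder

set_option autoImplicit false

open scoped InnerProductSpace Topology ContDiff Manifold
open MeasureTheory Filter Set

noncomputable section

namespace Pool.Agent.PQP.H21

open Pool.Agent.Helper42_Paneitz Pool.Agent.Helper82_Vir Pool.Agent.FLX Pool.Agent.PQP

/-- the moment map -/
def mm (f : S4 → ℝ) (b : E5) : E5 := ∫ y, f y • (mob b y : E5) ∂sig

theorem continuous_mob (mos : MosStmt) {b : E5} (hb : ‖b‖ < 1) : Continuous (mob b) := by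
  rw [continuous_iff_continuousAt]
  intro x
  have h1 := mos.1.comp_continuous (f := fun x : S4 => (b, x))
    (continuous_const.prodMk continuous_id) (fun x => hb)
  exact h1.continuousAt

theorem continuousOn_mm (mos : MosStmt) {f : S4 → ℝ} (hf : Dens f) :
    ContinuousOn (mm f) {b : E5 | ‖b‖ < 1} := by
  obtain ⟨hc, hp, -⟩ := hf
  refine continuousOn_of_dominated (bound := f) ?_ ?_ (integrable_cont hc) ?_
  · intro b hb
    have h1 : Continuous fun y : S4 => f y • (mob b y : E5) :=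
      hc.smul (continuous_subtype_val.comp (continuous_mob mos hb))
    exact h1.aestronglyMeasurable
  · intro b _
    refine Eventually.of_forall fun y => ?_
    rw [norm_smul, S4_norm, mul_one, Real.norm_eq_abs, abs_of_pos (hp y)]
  · refine Eventually.of_forall fun y => ?_
    have h1 : ContinuousOn (fun b : E5 => mob b y) {b : E5 | ‖b‖ < 1} :=
      mos.1.comp (f := fun b : E5 => (b, y)) (continuousOn_id.prodMk continuousOn_const)
        (fun b hb => hb)
    have h2 : ContinuousOn (fun b : E5 => (mob b y : E5)) {b : E5 | ‖b‖ < 1} :=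
      continuous_subtype_val.comp_continuousOn h1
    exact h2.const_smul (f y)

theorem inner_mm (moa : MoaStmt) (mos : MosStmt) {f : S4 → ℝ} (hf : Dens f) {b : E5}
    (hb : ‖b‖ < 1) :
    ⟪b, mm f b⟫_ℝ = ∫ y, f y * (1 - (1 - ‖b‖ ^ 2) / (1 + ⟪b, (y : E5)⟫_ℝ)) ∂sig := by
  have hi : Integrable (fun y : S4 => f y • (mob b y : E5)) sig := by
    have h1 : Continuous fun y : S4 => f y • (mob b y : E5) :=
      hf.1.smul (continuous_subtype_val.comp (continuous_mob mos hb))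
    refine Integrable.mono' (integrable_cont hf.1) h1.aestronglyMeasurable ?_
    refine Eventually.of_forall fun y => ?_
    rw [norm_smul, S4_norm, mul_one, Real.norm_eq_abs, abs_of_pos (hf.2.1 y)]
  unfold mm
  rw [← integral_inner hi]
  refine integral_congr_ae (Eventually.of_forall fun y => ?_)
  obtain ⟨m1, -, -, -, m5, -⟩ := moa b hb
  have h1 := m5 y
  have h2 := m1 y
  show ⟪b, f y • (mob b y : E5)⟫_ℝ = _
  rw [inner_smul_right]
  congr 1
  have h3 : (1 - ‖b‖ ^ 2) / (1 + ⟪b, (y : E5)⟫_ℝ) = 1 - ⟪b, (mob b y : E5)⟫_ℝ := by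
    rw [div_eq_iff h2.ne']; exact h1.symm
  rw [h3]; ring

/-- row BAL -/
theorem bal (moa : MoaStmt) (mos : MosStmt) (mom : MomStmt) (pow_ : PowStmt) : BalStmt := by
  intro f hf
  obtain ⟨C, hC0, hC⟩ := pow_ 1 (by norm_num)
  obtain ⟨M, hM0, hM⟩ := exists_bound hf.1
  -- the radius
  set K : ℝ := M * (2 * C) with hK
  have hK0 : 0 ≤ K := by positivity
  obtain ⟨ρ, hρ0, hρ1, hρ⟩ : ∃ ρ : ℝ, 1 / 2 ≤ ρ ∧ ρ < 1 ∧ (1 - ρ ^ 2) * K < 1 := by
    have h1 : 0 < 1 / (2 * (K + 1)) := by positivity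
    have h2 : 1 / (2 * (K + 1)) ≤ 1 / 2 := by
      rw [div_le_div_iff₀ (by positivity) (by norm_num)]; linarith
    refine ⟨1 - 1 / (2 * (K + 1)), by linarith, by linarith, ?_⟩
    have h3 : (1 - (1 - 1 / (2 * (K + 1))) ^ 2) ≤ 2 * (1 / (2 * (K + 1))) := by
      nlinarith
    calc (1 - (1 - 1 / (2 * (K + 1))) ^ 2) * K ≤ (2 * (1 / (2 * (K + 1)))) * K :=
          mul_le_mul_of_nonneg_right h3 hK0
      _ = K / (K + 1) := by field_simp
      _ < 1 := by rw [div_lt_one (by positivity)]; linarith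
  have hρp : 0 < ρ := by linarith
  -- positivity at the boundary
  have hpos : ∀ b : E5, ‖b‖ = ρ → 0 < ⟪b, mm f b⟫_ℝ := by
    intro b hb
    have hb1 : ‖b‖ < 1 := by rw [hb]; exact hρ1
    rw [inner_mm moa mos hf hb1]
    have hx0 : ‖-(ρ⁻¹ • b)‖ = 1 := by
      rw [norm_neg, norm_smul, hb, Real.norm_eq_abs, abs_of_pos (inv_pos.2 hρp)]
      field_simp
    set x0 : S4 := ⟨-(ρ⁻¹ • b), mem_sphere_zero_iff_norm.2 hx0⟩ with hx0d
    have hby : ∀ y : S4, ⟪b, (y : E5)⟫_ℝ = -(ρ * ⟪(x0 : E5), (y : E5)⟫_ℝ) := by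
      intro y
      show _ = -(ρ * ⟪-(ρ⁻¹ • b), (y : E5)⟫_ℝ)
      rw [inner_neg_left, real_inner_smul_left]
      field_simp
    obtain ⟨m1, -⟩ := moa b hb1
    have hint := (hC x0).1
    have hC1 := (hC x0).2
    have hcd : Continuous fun y : S4 => (1 + ⟪b, (y : E5)⟫_ℝ)⁻¹ :=
      Continuous.inv₀ (continuous_const.add (continuous_const.inner continuous_subtype_val))
        fun y => (m1 y).ne'
    have hle : ∫ y : S4, (1 + ⟪b, (y : E5)⟫_ℝ)⁻¹ ∂sig ≤ 2 * C := by
      calc ∫ y : S4, (1 + ⟪b, (y : E5)⟫_ℝ)⁻¹ ∂sig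
          ≤ ∫ y : S4, 2 * (1 - ⟪(x0 : E5), (y : E5)⟫_ℝ) ^ (-(1 : ℝ)) ∂sig := by
            refine integral_mono_ae (integrable_cont hcd) (hint.const_mul 2) ?_
            filter_upwards [ae_ne x0] with y hy
            have hlt : ⟪(x0 : E5), (y : E5)⟫_ℝ < 1 := by
              rw [inner_lt_one_iff_real_of_norm_eq_one (S4_norm x0) (S4_norm y)]
              exact fun h => hy (Subtype.ext h.symm)
            have hge := neg_one_le_inner x0 y
            rw [Real.rpow_neg_one, hby y]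
            have h5 : 0 < 1 - ⟪(x0 : E5), (y : E5)⟫_ℝ := by linarith
            have h6 : (1 - ⟪(x0 : E5), (y : E5)⟫_ℝ) / 2 ≤ 1 + -(ρ * ⟪(x0 : E5), (y : E5)⟫_ℝ) := by
              nlinarith
            calc (1 + -(ρ * ⟪(x0 : E5), (y : E5)⟫_ℝ))⁻¹
                ≤ ((1 - ⟪(x0 : E5), (y : E5)⟫_ℝ) / 2)⁻¹ := inv_anti₀ (by positivity) h6
              _ = 2 * (1 - ⟪(x0 : E5), (y : E5)⟫_ℝ)⁻¹ := by rw [inv_div]; ring
        _ = 2 * ∫ y : S4, (1 - ⟪(x0 : E5), (y : E5)⟫_ℝ) ^ (-(1 : ℝ)) ∂sig := integral_const_mul _ _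
        _ ≤ 2 * C := by linarith
    have hs : 0 < 1 - ‖b‖ ^ 2 := by
      have := norm_nonneg b
      nlinarith
    have e1 : (fun y : S4 => f y * (1 - (1 - ‖b‖ ^ 2) / (1 + ⟪b, (y : E5)⟫_ℝ))) = fun y : S4 =>
        f y - (1 - ‖b‖ ^ 2) * (f y * (1 + ⟪b, (y : E5)⟫_ℝ)⁻¹) := by
      funext y; rw [div_eq_mul_inv]; ring
    rw [e1, integral_sub (integrable_cont hf.1)
      ((integrable_cont (hf.1.fun_mul hcd)).const_mul _), integral_const_mul, hf.2.2]
    have h7 : ∫ y : S4, f y * (1 + ⟪b, (y : E5)⟫_ℝ)⁻¹ ∂sig ≤ K := by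
      calc ∫ y : S4, f y * (1 + ⟪b, (y : E5)⟫_ℝ)⁻¹ ∂sig
          ≤ ∫ y : S4, M * (1 + ⟪b, (y : E5)⟫_ℝ)⁻¹ ∂sig := by
            refine integral_mono (integrable_cont (hf.1.fun_mul hcd))
              ((integrable_cont hcd).const_mul M) fun y => ?_
            exact mul_le_mul_of_nonneg_right ((le_abs_self _).trans (hM y)) (inv_pos.2 (m1 y)).le
        _ = M * ∫ y : S4, (1 + ⟪b, (y : E5)⟫_ℝ)⁻¹ ∂sig := integral_const_mul _ _
        _ ≤ M * (2 * C) := mul_le_mul_of_nonneg_left hle hM0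
    have h8 : (1 - ‖b‖ ^ 2) * ∫ y : S4, f y * (1 + ⟪b, (y : E5)⟫_ℝ)⁻¹ ∂sig ≤ (1 - ‖b‖ ^ 2) * K :=
      mul_le_mul_of_nonneg_left h7 hs.le
    rw [hb] at h8 ⊢
    linarith
  -- a zero of the moment map
  obtain ⟨b, hb, hz⟩ : ∃ b : E5, ‖b‖ < 1 ∧ mm f b = 0 := by
    by_contra hcon
    push Not at hcon
    have hsub : Metric.closedBall (0 : E5) ρ ⊆ {b : E5 | ‖b‖ < 1} := fun b hb => by
      have := mem_closedBall_zero_iff.1 hb
      exact this.trans_lt hρ1
    have hcm : ContinuousOn (mm f) (Metric.closedBall (0 : E5) ρ) :=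
      (continuousOn_mm mos hf).mono hsub
    have hne : ∀ b ∈ Metric.closedBall (0 : E5) ρ, mm f b ≠ 0 := fun b hb => hcon b (hsub hb)
    obtain ⟨b, hbK, hfix⟩ := Pool.Agent.Common_Brouwer.schauder
      (isCompact_closedBall (0 : E5) ρ) (convex_closedBall _ _)
      ⟨0, Metric.mem_closedBall_self hρp.le⟩
      (f := fun b => -((ρ / ‖mm f b‖) • mm f b)) (by
        have h1 : ContinuousOn (fun b => ρ / ‖mm f b‖) (Metric.closedBall (0 : E5) ρ) :=
          continuousOn_const.div hcm.norm fun b hb => norm_ne_zero_iff.2 (hne b hb)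
        exact (h1.fun_smul hcm).fun_neg)
      (by
        intro b hb
        rw [mem_closedBall_zero_iff, norm_neg, norm_smul, Real.norm_eq_abs,
          abs_of_nonneg (by positivity), div_mul_cancel₀ _ (norm_ne_zero_iff.2 (hne b hb))])
    have hn : 0 < ‖mm f b‖ := norm_pos_iff.2 (hne b hbK)
    have hnb : ‖b‖ = ρ := by
      have := congrArg norm hfix
      rw [← this, norm_neg, norm_smul, Real.norm_eq_abs, abs_of_nonneg (by positivity),
        div_mul_cancel₀ _ hn.ne']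
    have h1 := hpos b hnb
    have h2 : ⟪b, mm f b⟫_ℝ = -(ρ * ‖mm f b‖) := by
      have h3 : ⟪b, mm f b⟫_ℝ = ⟪-((ρ / ‖mm f b‖) • mm f b), mm f b⟫_ℝ :=
        congrArg (fun z : E5 => ⟪z, mm f b⟫_ℝ) hfix.symm
      rw [h3, inner_neg_left, real_inner_smul_left, real_inner_self_eq_norm_sq]
      field_simp
    rw [h2] at h1
    have : 0 < ρ * ‖mm f b‖ := by positivity
    linarith
  refine ⟨-b, by rwa [norm_neg], ?_⟩
  unfold Bal
  have hb' : ‖-b‖ < 1 := by rwa [norm_neg]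
  obtain ⟨n1, -, -, n4, -, -⟩ := moa (-b) hb'
  have hcJ : Continuous (Jac (-b)) := by
    unfold Jac
    refine Continuous.div continuous_const ?_ fun x => (pow_pos (n1 x) 4).ne'
    exact (continuous_const.add (continuous_const.inner continuous_subtype_val)).pow 4
  have hcp : Continuous (pull (-b) f) := (hf.1.comp (continuous_mob mos hb')).fun_mul hcJ
  have hi1 : Integrable (fun y : S4 => pull (-b) f y • (y : E5)) sig := by
    refine Integrable.mono' (integrable_cont hcp.abs)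
      (hcp.smul continuous_subtype_val).aestronglyMeasurable ?_
    refine Eventually.of_forall fun y => ?_
    rw [norm_smul, S4_norm, mul_one, Real.norm_eq_abs]
  have hi2 : Integrable (fun y : S4 => f y • (mob b y : E5)) sig := by
    have h1 : Continuous fun y : S4 => f y • (mob b y : E5) :=
      hf.1.smul (continuous_subtype_val.comp (continuous_mob mos hb))
    refine Integrable.mono' (integrable_cont hf.1) h1.aestronglyMeasurable ?_
    refine Eventually.of_forall fun y => ?_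
    rw [norm_smul, S4_norm, mul_one, Real.norm_eq_abs, abs_of_pos (hf.2.1 y)]
  refine ext_inner_left ℝ fun v => ?_
  have h0 := integral_inner (𝕜 := ℝ) hi1 v
  rw [← h0, inner_zero_right]
  have h1 := mom (-b) hb' (fun y => f y * ⟪v, (mob b y : E5)⟫_ℝ)
  have h2 : ∫ y, f y * ⟪v, (mob b y : E5)⟫_ℝ ∂sig = 0 := by
    have h3 := integral_inner (𝕜 := ℝ) hi2 v
    have h4 : ∫ y, f y • (mob b y : E5) ∂sig = 0 := hz
    rw [h4, inner_zero_right] at h3
    rw [← h3]
    refine integral_congr_ae (Eventually.of_forall fun y => ?_)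
    show f y * ⟪v, (mob b y : E5)⟫_ℝ = ⟪v, f y • (mob b y : E5)⟫_ℝ
    rw [inner_smul_right]
  rw [← h2, ← h1]
  refine integral_congr_ae (Eventually.of_forall fun y => ?_)
  show ⟪v, pull (-b) f y • (y : E5)⟫_ℝ =
    f (mob (-b) y) * ⟪v, (mob b (mob (-b) y) : E5)⟫_ℝ * Jac (-b) y
  have h5 := n4 y
  rw [neg_neg] at h5
  rw [h5, inner_smul_right]
  unfold pull
  ring

end Pool.Agent.PQP.H21
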