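import Pool.Agent.Helper54_FLX.All
import Pool.Agent.Helper69_FLX.Fin
import Pool.Agent.Helper76_FLX.Moi
import Pool.Agent.Helper10_PQP.POT
import Pool.Agent.Helper77_PQP.SMF
import Pool.Agent.Helper91_PQP.COV
import Pool.Agent.Helper20_PQP.LIPB
import Pool.Agent.Helper83_PQP.VIR
import Pool.Agent.Helper83_PQP.KWA
import Pool.Agent.Helper47_PQP.ZVI
import Pool.Agent.Helper58_PQP.CUT
import Pool.Agent.Helper60_PQP.JEG
import Pool.Agent.Helper49_PQP.JEN
import Pool.Agent.Helper8_PQP.BLM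
import Pool.Agent.Helper31_PQP.NOC
import Pool.Agent.Helper44_PQP.Eqc
import Pool.Agent.Helper29_PQP.ASC
import Pool.Agent.Helper29_PQP.CPL
import Pool.Agent.Helper94_PQP.CPA
import Pool.Agent.Helper5_PQP.CPT
import Pool.Agent.Helper61_PQP.BDJ
import Pool.Agent.Helper58_PQP.OSC
import Pool.Agent.Helper41_PQP.CMP
import Pool.Agent.Helper26_PQP.CMW
import Pool.Agent.Helper64_PQP.BDD
import Pool.Agent.Helper38_PQP.MMT
import Pool.Agent.Helper59_PQP.HES
import Pool.Agent.Helper24_PQP.TYT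
import Pool.Agent.Helper23_PQP.DIL
import Pool.Agent.Helper17_PQP.MTG
import Pool.Agent.Helper55_PQP.BNX
import Pool.Agent.Helper81_PQP.KWB
import Pool.Agent.Helper82_PQP.NOB
import Pool.Agent.Helper41_PQP.APR
import Pool.Agent.Helper68_PQP.MOW
import Pool.Agent.Helper7_PQP.MKB
import Pool.Agent.Helper87_PQP.TAW
import Pool.Agent.Helper48_PQP.HSW
import Pool.Agent.Helper39_PQP.RTW
import Pool.Agent.Helper82_PQP.KHL
import Pool.Agent.Helper53_PQP.INV
import Pool.Agent.Helper36_PQP.CTZ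
import Pool.Agent.Helper56_PQP.SLZ
import Pool.Agent.Helper49_PQP.PCZ
import Pool.Agent.Helper56_PQP.SMT
import Pool.Agent.Helper4_PQP.Srz
import Pool.Agent.Helper75_PQP.LHM
import Pool.Agent.Helper27_PQP.MDC
import Pool.Agent.Helper90_PQP.HMT
import Pool.Agent.Helper43_PQP.DOL
import Pool.Agent.Helper32_PQP.FTD
import Pool.Agent.Helper32_PQP.ESS
import Pool.Agent.Helper52_PQP.WND
import Pool.Agent.Helper25_PQP.LFT
import Pool.Agent.Helper21_PQP.ZAN
import Pool.Agent.Helper25_PQP.D2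
import Pool.Agent.Helper71_PQP.ZEX
import Pool.Agent.Helper3_PQP.ZIF
import Pool.Agent.Helper21_PQP.BRS
import Pool.Agent.Helper15_PQP.DBO
import Pool.Agent.Helper15_PQP.TAU
import Pool.Agent.Helper75_PQP.IDE
import Pool.Agent.Helper25_PQP.GSM
import Pool.Agent.Helper44_PQP.Mov
import Pool.Agent.Helper65_PQP.SYM
import Pool.Agent.Helper21_PQP.CLS
import Pool.Agent.Helper62_PQP.ES1
import Pool.Agent.Helper7_PQP.D1
import Pool.Agent.Helper21_PQP.FinZ

/-!
# Squad PQP: the rows of the symmetric theorems together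
-/

set_option autoImplicit false

noncomputable section

namespace Pool.Agent.PQP.All

open Pool.Agent.FLX Pool.Agent.FLX.H54

/-! ### rows of squad FLX -/

theorem ker : KerStmt := Pool.Agent.FLX.H83.ker pow_all
theorem rea : ReaStmt := Pool.Agent.FLX.H32.rea pow_all ker
theorem sym : Pool.Agent.FLX.SymStmt := Pool.Agent.FLX.H55.sym ker rea
theorem rec_ : RecStmt := Pool.Agent.FLX.H25.rec_row rea (Pool.Agent.FLX.H77.reb ker rea)
theorem reg : RegStmt := Pool.Agent.FLX.H39.reg rec_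
theorem rep : RepStmt := Pool.Agent.FLX.H82.rep ker
theorem slv : SlvStmt := Pool.Agent.FLX.H53.slv rec_ sym rep
theorem xis : Pool.Agent.FLX.XisStmt := Pool.Agent.FLX.H55.xis sym rep
theorem fin : FinStmt := Pool.Agent.FLX.H69.fin reg slv
theorem moi : MoiStmt := Pool.Agent.FLX.H76.moi moa_all mos_all mom_all ker

/-! ### blocks V and C -/

theorem pot_ : PotStmt := H10.pot_ ker rea
theorem smf : SmfStmt := H77.smf pot_ reg slv
theorem cov : CovStmt := H91.cov moa_all mos_all mom_all ker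
theorem vir : VirStmt := H83.vir smf
theorem kwa : KwaStmt := H83.kwa vir
theorem zvi : ZviStmt := H47.zvi vir
theorem cut : CutStmt := H58.cut zvi kwa
theorem jeg : JegStmt := H60.jeg pow_all
theorem jen : JenStmt := H49.jen ker jeg pot_
theorem noc : NocStmt := H31.noc cov H20.lipb cut H8.blm
theorem eqc : EqcStmt := H44.eqc pow_all
theorem cpl : CplStmt := H29.cpl eqc
theorem bdj : BdjStmt := H61.bdj jen pot_
theorem cpa : CpaStmt := H94.cpa bdj ker
theorem osc : OscStmt := H58.osc moa_all H20.lipb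
theorem bdd : BddStmt := H64.bdd bdj eqc
theorem mtg : MtgStmt := H17.mtg H38.mmt H59.hes mos_all
theorem bnx : BnxStmt := H55.bnx mtg H24.tyt H23.dil
theorem kwb : KwbStmt := H81.kwb kwa cov moa_all
theorem nob : NobStmt := H82.nob cut H8.blm
theorem mkb : MkbStmt := H7.mkb H68.mow pow_all
theorem taw : TawStmt := H87.taw H24.tyt
theorem rtw : RtwStmt := H39.rtw taw H48.hsw H68.mow mkb
theorem tau_ : TauStmt := H15.tau_stmt moa_all mom_all
theorem gsm : GsmStmt := H25.gsm pow_all
theorem ide : IdeStmt := H75.ide tau_ ker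
theorem mov : MovStmt := H44.mov ide gsm tau_
theorem symP : Pool.Agent.PQP.SymStmt := H65.sym mov ide tau_ gsm
theorem cls : ClsStmt := H21.cls symP tau_
theorem cpt : CptStmt := Pool.Agent.Helper5_PQP.cpt_row cpa cpl eqc H29.asc cls
theorem cmp : CmpStmt := H41.cmp cpt osc noc cov
theorem cmw : CmwStmt := H26.cmw cmp Pool.Agent.FLX.H82.vol mom_all
theorem apr : AprStmt := H41.apr bnx cmw noc nob bdd kwb H20.lipb cov

/-! ### blocks T, Z, B -/

theorem khl : KhlStmt := H82.khl pow_all ker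
theorem inv : InvStmt := H53.inv moa_all
theorem ctz : CtzStmt := H36.ctz khl inv mos_all ker
theorem slz : SlzStmt := H56.slz xis sym ker rea mos_all
theorem pcz : PczStmt := H49.pcz moi fin
theorem smt : SmtStmt := H56.smt cmp H20.lipb moa_all
theorem lhm : LhmStmt := H75.lhm mos_all rtw
theorem zan : ZanStmt :=
  H21.zan ctz slz pcz smt H4.srz lhm H27.mdc H90.hmt apr
theorem d2 : D2Stmt := H25.d2 zan (H32.ess (H32.ftd H43.dol)) H27.mdc
theorem zex : ZexStmt := H71.zex d2 H52.wnd H25.lft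
theorem zif : ZifStmt := H3.zif zex
theorem dbo : DboStmt := H15.dbo zan H27.mdc H90.hmt H21.brs

theorem d1 : D1Stmt := H7.d1 zan H62.es1 H27.mdc
theorem idx : Idx.IdxStmt := Idx.idx d2
theorem dbq : Dbq.DbqStmt := Dbq.dbq zan H27.mdc H90.hmt H21.brs

end Pool.Agent.PQP.All
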