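import Pool.Agent.Helper15_PQP.DBO
import Pool.Agent.Helper21_PQP.Idx

/-!
# Squad PQP: the antipodal condition in terms of `G = -ΔQ x + ∇Q` (helper21)
-/

set_option autoImplicit false

open scoped InnerProductSpace Topology ContDiff Manifold
open MeasureTheory Filter Set

noncomputable section

namespace Pool.Agent.PQP.Dbq

open Pool.Agent.Helper42_Paneitz Pool.Agent.Helper82_Vir Pool.Agent.FLX Pool.Agent.PQP

/-- DBQ -/
def DbqStmt : Prop :=
  ∀ (P : Submodule ℝ E5) (Q : S4 → ℝ), Sm Q → (∀ x, 0 < Q x) → Inv P Q → P ≠ ⊥ →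
    (∀ (p p' : S4) (l : ℝ), (p : E5) ∈ P → (p' : E5) = -(p : E5) → 0 ≤ l → l ≤ 1 →
      mw Q p ≠ l • mw Q p') →
    IsPaneitzCurvature Q

theorem mw_eq_zero {f : S4 → ℝ} (hf : Sm f) {w : S4} (h : mw f w = 0) :
    Crit f w ∧ sphLaplacian f w = 0 := by
  have ho : ⟪(w : E5), gd f w⟫_ℝ = 0 := by rw [inner_gd, dd_self hf]
  have hs : ⟪(w : E5), (w : E5)⟫_ℝ = 1 := by
    rw [real_inner_self_eq_norm_sq, S4_norm w]; norm_num
  have h1 : sphLaplacian f w = 0 := by
    have h2 := congrArg (fun v => ⟪(w : E5), v⟫_ℝ) h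
    unfold mw at h2
    simp only [inner_add_right, real_inner_smul_right, ho, hs, inner_zero_right] at h2
    linarith
  refine ⟨fun v => ?_, h1⟩
  unfold mw at h
  rw [h1, neg_zero, zero_smul, zero_add] at h
  rw [← inner_gd, h, inner_zero_right]

theorem mw_of_crit {f : S4 → ℝ} {w : S4} (h : Crit f w) :
    mw f w = (-(sphLaplacian f w)) • (w : E5) := by
  unfold mw
  have h1 : gd f w = 0 := by
    apply ext_inner_left ℝ
    intro v
    rw [inner_gd, h v, inner_zero_right]
  rw [h1, add_zero]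

/-- the map is essential under the antipodal condition -/
theorem ess_odd (mdc : MdcStmt) (hmt : HmtStmt) (brs : BrsStmt) (P : Submodule ℝ E5)
    (f : S4 → ℝ) (hf : Sm f) (hinv : Inv P f) (hP : P ≠ ⊥)
    (h : ∀ (p p' : S4) (l : ℝ), (p : E5) ∈ P → (p' : E5) = -(p : E5) → 0 ≤ l → l ≤ 1 →
      mw f p ≠ l • mw f p') :
    ¬ Ine (fun z : P × EE P => mdl P f z.1) (fun _ => 0) := by
  obtain ⟨hc, hm⟩ := mdc P f hf hinv
  have hcr : ∀ p : S4, (p : E5) ∈ P → Crit f p → sphLaplacian f p ≠ 0 := by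
    intro p hp hcrit h0
    refine h p ⟨-(p : E5), by rw [mem_sphere_zero_iff_norm, norm_neg, S4_norm]⟩ 0 hp rfl
      le_rfl zero_le_one ?_
    rw [mw_of_crit hcrit, h0, neg_zero, zero_smul, zero_smul]
  have hopp : ∀ (p p' : S4) (l : ℝ), (p : E5) ∈ P → (p' : E5) = -(p : E5) → 0 < l → l ≤ 1 →
      ¬ (gd f p = l • gd f p' ∧ sphLaplacian f p = -(l * sphLaplacian f p')) := by
    rintro p p' l hp hp' h0 h1 ⟨h2, h3⟩
    refine h p p' l hp hp' h0.le h1 ?_
    unfold mw
    rw [h2, h3, hp']
    module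
  intro hine
  have key := @H15.mdl_ne P f hf hcr hopp hm
  have hnt : Nontrivial P := (Submodule.nontrivial_iff_ne_bot).2 hP
  refine brs P (EE P) (fun z => mdl P f z - mdl P f (-z)) (hc.sub (hc.comp continuous_neg))
    (fun z => by rw [neg_neg]; abel) ?_ ?_
  · intro z hz
    by_contra hne
    refine key hne zero_le_one le_rfl ?_
    rw [one_smul]
    exact sub_eq_zero.1 hz
  · have h := hmt P (EE P) (fun p => mdl P f p.2.1 - (1 - p.1) • mdl P f (-p.2.1)) (fun _ => 0)
      ?_ ?_ ?_ ?_
    · have e : (fun z : P × EE P => mdl P f z.1 - mdl P f (-z.1)) =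
          fun z : P × EE P => mdl P f z.1 - (1 - (0 : ℝ)) • mdl P f (-z.1) := by
        funext z
        rw [sub_zero, one_smul]
      rw [e]
      exact h
    · apply Continuous.continuousOn
      have c1 : Continuous fun p : ℝ × (P × EE P) => mdl P f p.2.1 :=
        hc.comp (continuous_fst.comp continuous_snd)
      have c2 : Continuous fun p : ℝ × (P × EE P) => mdl P f (-p.2.1) :=
        hc.comp (continuous_neg.comp (continuous_fst.comp continuous_snd))
      exact c1.sub ((continuous_const.sub continuous_fst).smul c2)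
    · exact ⟨continuousOn_const, {0}, isCompact_singleton, fun _ _ => rfl⟩
    · rintro s hs z hz ⟨h1, h2⟩
      have hz2 : z.2 = 0 := h2
      have hz1 : ‖z.1‖ = 1 := by
        rcases hz.2.2 with h | h
        · exact h
        · exact absurd (h.symm.trans (norm_eq_zero.2 hz2)) one_ne_zero
      have hne : z.1 ≠ 0 := by
        intro h
        rw [h, norm_zero] at hz1
        exact absurd hz1 (by norm_num)
      exact key hne (by linarith [hs.2]) (by linarith [hs.1]) (sub_eq_zero.1 h1)
    · have e : (fun z : P × EE P => mdl P f z.1 - (1 - (1 : ℝ)) • mdl P f (-z.1)) =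
          fun z : P × EE P => mdl P f z.1 := by
        funext z
        rw [sub_self, zero_smul, sub_zero]
      show Ine (fun z : P × EE P => mdl P f z.1 - (1 - (1 : ℝ)) • mdl P f (-z.1)) fun _ => 0
      rw [e]
      exact hine

theorem gd_log {Q : S4 → ℝ} (hQ : Sm Q) (hp : ∀ x, 0 < Q x) (w : S4) :
    gd Q w = Q w • gd (fun z => Real.log (Q z)) w := by
  apply ext_inner_left ℝ
  intro v
  rw [inner_gd, inner_smul_right, inner_gd, H41.dd_eq_mul_dlog hQ hp]

/-- `G` for `Q` and for `log Q` are homotopic -/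
theorem ess_log (mdc : MdcStmt) (hmt : HmtStmt) (P : Submodule ℝ E5) (Q : S4 → ℝ) (hQ : Sm Q)
    (hpos : ∀ x, 0 < Q x) (hinv : Inv P Q)
    (hcr : ∀ p : S4, (p : E5) ∈ P → Crit Q p → sphLaplacian Q p ≠ 0)
    (hess : ¬ Ine (fun z : P × EE P => mdl P Q z.1) (fun _ => 0)) :
    ¬ Ine (fun z : P × EE P => mdl P (fun x => Real.log (Q x)) z.1) (fun _ => 0) := by
  intro hine
  refine hess ?_
  set ψ : S4 → ℝ := fun x => Real.log (Q x) with hψdef
  have hψ : Sm ψ := H41.sm_log hQ hpos
  have hψI : Inv P ψ := by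
    intro x
    show Real.log (Q (act P.reflection x)) = Real.log (Q x)
    rw [hinv x]
  obtain ⟨hc, hm⟩ := mdc P Q hQ hinv
  obtain ⟨hc', hm'⟩ := mdc P ψ hψ hψI
  have h := hmt P (EE P) (fun p => p.1 • mdl P ψ p.2.1 + (1 - p.1) • mdl P Q p.2.1) (fun _ => 0)
    ?_ ?_ ?_ ?_
  · have e : (fun z : P × EE P => mdl P Q z.1) =
        fun z : P × EE P => (0 : ℝ) • mdl P ψ z.1 + (1 - (0 : ℝ)) • mdl P Q z.1 := by
      funext z
      rw [zero_smul, zero_add, sub_zero, one_smul]
    rw [e]
    exact h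
  · apply Continuous.continuousOn
    have c1 : Continuous fun p : ℝ × (P × EE P) => mdl P ψ p.2.1 :=
      hc'.comp (continuous_fst.comp continuous_snd)
    have c2 : Continuous fun p : ℝ × (P × EE P) => mdl P Q p.2.1 :=
      hc.comp (continuous_fst.comp continuous_snd)
    exact (continuous_fst.smul c1).add ((continuous_const.sub continuous_fst).smul c2)
  · exact ⟨continuousOn_const, {0}, isCompact_singleton, fun _ _ => rfl⟩
  · rintro s hs z hz ⟨h1, h2⟩
    have hz2 : z.2 = 0 := h2
    have hz1 : ‖z.1‖ = 1 := by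
      rcases hz.2.2 with h | h
      · exact h
      · exact absurd (h.symm.trans (norm_eq_zero.2 hz2)) one_ne_zero
    have hne : (z.1 : E5) ≠ 0 := by
      intro h
      have : ‖z.1‖ = 0 := by rw [Submodule.coe_norm, h, norm_zero]
      rw [this] at hz1
      exact absurd hz1 (by norm_num)
    have h3 := congrArg (fun v : P => (v : E5)) h1
    simp only [Submodule.coe_add, Submodule.coe_smul, Submodule.coe_zero] at h3
    rw [hm, hm', hz1, one_smul, one_smul] at h3
    set w : S4 := nrm (z.1 : E5) with hw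
    have hwP : (w : E5) ∈ P := by
      rw [hw, H15.nrm_coe hne]
      exact P.smul_mem _ z.1.2
    have ho : ⟪(w : E5), gd ψ w⟫_ℝ = 0 := by rw [inner_gd, dd_self hψ]
    have hgQ := gd_log hQ hpos w
    have hQw := hpos w
    -- the gradient
    have hg0 : gd ψ w = 0 := by
      have h4 := congrArg (fun v => ⟪gd ψ w, v⟫_ℝ) h3
      unfold mw at h4
      rw [hgQ] at h4
      have ho' : ⟪gd ψ w, (w : E5)⟫_ℝ = 0 := by rw [real_inner_comm, ho]
      simp only [inner_add_right, real_inner_smul_right, ho', inner_zero_right, mul_zero,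
        zero_add] at h4
      have h5 : (s + (1 - s) * Q w) * ⟪gd ψ w, gd ψ w⟫_ℝ = 0 := by
        linear_combination h4
      rcases mul_eq_zero.1 h5 with h6 | h6
      · exfalso
        rcases hs.1.eq_or_lt with h7 | h7
        · rw [← h7] at h6
          linarith
        · nlinarith [mul_nonneg (sub_nonneg.2 hs.2) hQw.le]
      · exact inner_self_eq_zero.1 h6
    have hcrψ : Crit ψ w := by
      intro v
      rw [← inner_gd, hg0, inner_zero_right]
    have hcrQ : Crit Q w := by
      intro v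
      rw [← inner_gd, hgQ, hg0, smul_zero, inner_zero_right]
    have hlap := Idx.lap_log hQ hpos hcrψ
    have hne2 := hcr w hwP hcrQ
    rw [mw_of_crit hcrψ, mw_of_crit hcrQ, hlap] at h3
    have h4 := congrArg (fun v => ⟪(w : E5), v⟫_ℝ) h3
    have hs1 : ⟪(w : E5), (w : E5)⟫_ℝ = 1 := by
      rw [real_inner_self_eq_norm_sq, S4_norm w]; norm_num
    simp only [inner_add_right, real_inner_smul_right, hs1, inner_zero_right] at h4
    have h5 : (s + (1 - s) * Q w) * sphLaplacian ψ w = 0 := by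
      linear_combination -h4
    rcases mul_eq_zero.1 h5 with h6 | h6
    · rcases hs.1.eq_or_lt with h7 | h7
      · rw [← h7] at h6
        linarith
      · nlinarith [mul_nonneg (sub_nonneg.2 hs.2) hQw.le]
    · exact hne2 (by rw [hlap, h6, mul_zero])
  · have e : (fun z : P × EE P => (1 : ℝ) • mdl P ψ z.1 + (1 - (1 : ℝ)) • mdl P Q z.1) =
        fun z : P × EE P => mdl P ψ z.1 := by
      funext z
      rw [sub_self, zero_smul, add_zero, one_smul]
    show Ine (fun z : P × EE P => (1 : ℝ) • mdl P ψ z.1 + (1 - (1 : ℝ)) • mdl P Q z.1) fun _ => 0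
    rw [e]
    exact hine

theorem dbq (zan : ZanStmt) (mdc : MdcStmt) (hmt : HmtStmt) (brs : BrsStmt) : DbqStmt := by
  intro P Q hQ hpos hinv hP h
  have hcr : ∀ p : S4, (p : E5) ∈ P → Crit Q p → sphLaplacian Q p ≠ 0 := by
    intro p hp hcrit h0
    refine h p ⟨-(p : E5), by rw [mem_sphere_zero_iff_norm, norm_neg, S4_norm]⟩ 0 hp rfl
      le_rfl zero_le_one ?_
    rw [mw_of_crit hcrit, h0, neg_zero, zero_smul, zero_smul]
  have he := ess_log mdc hmt P Q hQ hpos hinv hcr (ess_odd mdc hmt brs P Q hQ hinv hP h)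
  set ψ : S4 → ℝ := fun x => Real.log (Q x) with hψdef
  have hψ : Sm ψ := H41.sm_log hQ hpos
  have hψI : Inv P ψ := by
    intro x
    show Real.log (Q (act P.reflection x)) = Real.log (Q x)
    rw [hinv x]
  have h1 := zan P ψ hψ hψI hP (fun p hp hcrit h0 => by
    have hcQ : Crit Q p := fun v => by
      rw [H41.dd_eq_mul_dlog hQ hpos]
      show Q p * dd ψ p v = 0
      rw [hcrit v, mul_zero]
    refine hcr p hp hcQ ?_
    rw [Idx.lap_log hQ hpos hcrit]
    show Q p * sphLaplacian ψ p = 0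
    rw [h0, mul_zero]) he
  exact (show (fun x => Real.exp (ψ x)) = Q from funext fun x => Real.exp_log (hpos x)) ▸ h1

end Pool.Agent.PQP.Dbq
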