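import Pool.Agent.Helper21_PQP.AllZ

/-!
# Prescribed Paneitz curvature on `S^4`: functions invariant under a reflection

`Q` is a positive smooth function on the unit sphere `S^4` of `ℝ^5`.

(1) `C = {x_1 = x_2 = x_3 = 0}` is a great circle and `Q` is invariant under the isometry
`(x_0, -x_1, -x_2, -x_3, x_4)` of `S^4`, which fixes `C` and no other point.  Only the critical points of `Q` on
`C` matter: if they are finite in number, `Δ Q ≠ 0` at them, and the number of local maxima of
`Q|C` with `Δ Q < 0` minus the number of local minima of `Q|C` with `Δ Q < 0` is not `1`, then `Q` is a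
Paneitz curvature.

(2) `P ≠ 0` is a linear subspace of `ℝ^5`, `Q` is invariant under the reflection `2 pr_P - 1`, which fixes the
great sphere `S^4 ∩ P`; `G(x) = -ΔQ(x) x + ∇Q(x)`.  If `G(x) ≠ l G(-x)` for all `x ∈ S^4 ∩ P` and
`0 ≤ l ≤ 1` then `Q` is a Paneitz curvature.

(3) Zonal functions `Q(x) = q(x_4)`, nondegenerate: `Q` is a Paneitz curvature if and only if `q` is
not monotone.

The proof (squad PQP, 40 authors): compactness of the balanced solutions for `Q^t`, `0 < t ≤ 1`, in the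
class of invariant functions (bubbles are centred on `S^4 ∩ P`; classification of the limits by moving
caps; moment expansions), and homotopy invariance for compact perturbations of the identity in the
space (parameter of the Moebius map in `P`) × (invariant functions), down to small `t`.  The remaining
finite dimensional map is `G`; it is essential because of its winding number (Borsuk-Ulam-Dold) in (1),
(3), because it is homotopic to an odd map (Borsuk) in (2).
-/

set_option autoImplicit false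

open scoped Manifold ContDiff
open Set

noncomputable section

namespace Pool.Agent.Results.MP_5f32e0_gt.FixedCircleIndex

open Pool.Agent.Helper42_Paneitz

/-- Smooth functions on `S^4`. -/
def Smooth (f : S4 → ℝ) : Prop := ContMDiff (𝓡 4) 𝓘(ℝ, ℝ) ∞ f

/-- The great circle `C`: `circ φ = (sin φ, 0, 0, 0, cos φ)`. -/
def circ (φ : ℝ) : S4 := ⟨!₂[Real.sin φ, 0, 0, 0, Real.cos φ], by
  rw [mem_sphere_zero_iff_norm, EuclideanSpace.norm_eq, Real.sqrt_eq_one]
  simp [Fin.sum_univ_five]⟩

/-- `Q` is invariant under `(x_0, -x_1, -x_2, -x_3, x_4)`. -/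
def Flip (Q : S4 → ℝ) : Prop :=
  ∀ x y : S4, (y : E5) 0 = (x : E5) 0 → (y : E5) 1 = -(x : E5) 1 → (y : E5) 2 = -(x : E5) 2 →
    (y : E5) 3 = -(x : E5) 3 → (y : E5) 4 = (x : E5) 4 → Q y = Q x

/-- The number of local maxima of `Q|C` at which `Δ Q < 0`. -/
def maxima (Q : S4 → ℝ) : ℕ :=
  {φ : ℝ | φ ∈ Ico 0 (2 * Real.pi) ∧ IsLocalMax (fun t => Q (circ t)) φ ∧
    sphLaplacian Q (circ φ) < 0}.ncard

/-- The number of local minima of `Q|C` at which `Δ Q < 0`. -/
def minima (Q : S4 → ℝ) : ℕ :=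
  {φ : ℝ | φ ∈ Ico 0 (2 * Real.pi) ∧ IsLocalMin (fun t => Q (circ t)) φ ∧
    sphLaplacian Q (circ φ) < 0}.ncard

/-- `Q` is invariant under the reflection `2 pr_P - 1`. -/
def Invariant (P : Submodule ℝ E5) (Q : S4 → ℝ) : Prop :=
  ∀ x y : S4, (y : E5) = P.reflection (x : E5) → Q y = Q x

/-- The gradient of `Q` at `x`, a vector of `ℝ^5`: the Euclidean gradient of the extension
`y ↦ Q(y/|y|)`. -/
def grad (Q : S4 → ℝ) (x : S4) : E5 := gradient (radialExt Q) (x : E5)

/-- `G(x) = -ΔQ(x) x + ∇Q(x)`. -/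
def G (Q : S4 → ℝ) (x : S4) : E5 := (-(sphLaplacian Q x)) • (x : E5) + grad Q x

/-! ### the definitions agree with those of the squad -/

open Pool.Agent.Helper82_Vir Pool.Agent.FLX Pool.Agent.PQP in
theorem circ_eq (φ : ℝ) : circ φ = cir φ := by
  apply Subtype.ext
  show (!₂[Real.sin φ, 0, 0, 0, Real.cos φ] : E5) = Real.cos φ • ee 4 + Real.sin φ • ee 0
  ext i
  fin_cases i <;> simp

open Pool.Agent.Helper82_Vir Pool.Agent.FLX Pool.Agent.PQP in
theorem deriv_circ {Q : S4 → ℝ} (hQ : Sm Q) (φ : ℝ) :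
    deriv (fun t => Q (circ t)) φ = dd Q (cir φ) (cid φ) := by
  have h : (fun t => Q (circ t)) = fun t => Q (cir t) := funext fun t => by rw [circ_eq]
  rw [h]
  exact (Idx.hasDerivAt_cir hQ φ).deriv

open Pool.Agent.Helper82_Vir Pool.Agent.FLX Pool.Agent.PQP in
theorem G_eq (Q : S4 → ℝ) (x : S4) : G Q x = mw Q x := by
  have h : grad Q x = gd Q x := by
    apply ext_inner_left ℝ
    intro v
    rw [inner_gd, real_inner_comm]
    unfold grad gradient dd
    exact InnerProductSpace.toDual_symm_apply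
  unfold G mw
  rw [h]

open Pool.Agent.Helper82_Vir Pool.Agent.FLX Pool.Agent.PQP in
/-- (1) Functions invariant under the reflection which fixes a great circle; (2) functions
invariant under the reflection which fixes a great sphere; (3) zonal functions. -/
theorem result :
    (∀ Q : S4 → ℝ, Smooth Q → (∀ x, 0 < Q x) → Flip Q →
      {φ : ℝ | φ ∈ Ico 0 (2 * Real.pi) ∧ deriv (fun t => Q (circ t)) φ = 0}.Finite →
      (∀ φ : ℝ, deriv (fun t => Q (circ t)) φ = 0 → sphLaplacian Q (circ φ) ≠ 0) →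
      maxima Q ≠ minima Q + 1 → IsPaneitzCurvature Q) ∧
    (∀ (P : Submodule ℝ E5) (Q : S4 → ℝ), P ≠ ⊥ → Smooth Q → (∀ x, 0 < Q x) → Invariant P Q →
      (∀ (x y : S4) (l : ℝ), (x : E5) ∈ P → (y : E5) = -(x : E5) → 0 ≤ l → l ≤ 1 →
        G Q x ≠ l • G Q y) → IsPaneitzCurvature Q) ∧
    (∀ q : ℝ → ℝ, ContDiff ℝ ∞ q → (∀ s ∈ Icc (-1 : ℝ) 1, 0 < q s) →
      deriv q 1 ≠ 0 → deriv q (-1) ≠ 0 →
      (0 < deriv q 1 * deriv q (-1) →
        ∀ s ∈ Ioo (-1 : ℝ) 1, deriv q s = 0 → deriv (deriv q) s ≠ 0) →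
      (IsPaneitzCurvature (fun x : S4 => q ((x : E5) 4)) ↔
        ∃ s ∈ Ioo (-1 : ℝ) 1, deriv q s = 0)) := by
  refine ⟨?_, ?_, ?_⟩
  · intro Q hQ hpos hflip hfin hnd hne
    have hS := sm_of_contMDiff hQ
    have hc : circ = cir := funext circ_eq
    have hd : ∀ φ, deriv (fun t => Q (circ t)) φ = dd Q (cir φ) (cid φ) := deriv_circ hS
    unfold maxima minima at hne
    simp only [hd] at hfin hnd
    simp only [hc] at hne hnd
    exact Pool.Agent.PQP.All.idx Q hS hpos (FinZ.inv_of_flip hflip) hfin hnd hne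
  · intro P Q hP hQ hpos hinv h
    refine Pool.Agent.PQP.All.dbq P Q (sm_of_contMDiff hQ) hpos (fun x => hinv x _ rfl) hP ?_
    intro p p' l hp hp' h0 h1
    rw [← G_eq, ← G_eq]
    exact h p p' l hp hp' h0 h1
  · intro q hq hpos h1 hm hnd
    exact FinZ.ziq Pool.Agent.PQP.All.d1 Pool.Agent.PQP.All.zif q hq hpos h1 hm hnd

end Pool.Agent.Results.MP_5f32e0_gt.FixedCircleIndex
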