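import Mathlib

/-!
# Winding number and extrema

`x = r cos α`, `y = r sin α = g'`, period `2π`. The angle `α` changes over a period by `2π` times the number
of local minima of `g` with `x > 0` minus the number of local maxima of `g` with `x > 0`.
-/

set_option autoImplicit false

open Filter Set Topology

noncomputable section

namespace Pool.Agent.PQP.Windex

/-- the data -/
structure Dat (g x y α r : ℝ → ℝ) : Prop where
  ca : Continuous α
  dg : ∀ φ, HasDerivAt g (y φ) φ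
  cy : Continuous y
  pos : ∀ φ, 0 < r φ
  hx : ∀ φ, x φ = r φ * Real.cos (α φ)
  hy : ∀ φ, y φ = r φ * Real.sin (α φ)

/-- number of turns -/
def tu (α : ℝ → ℝ) (φ : ℝ) : ℤ := ⌊α φ / (2 * Real.pi)⌋

open Classical in
/-- the weight of a critical point -/
def wt (g x : ℝ → ℝ) (z : ℝ) : ℤ :=
  (if IsLocalMin g z ∧ 0 < x z then 1 else 0) - (if IsLocalMax g z ∧ 0 < x z then 1 else 0)

theorem fl_const {f : ℝ → ℝ} {a b : ℝ} (hab : a ≤ b) (hf : ContinuousOn f (Icc a b))
    (h : ∀ φ ∈ Icc a b, ∀ n : ℤ, f φ ≠ n) : ⌊f b⌋ = ⌊f a⌋ := by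
  rcases lt_trichotomy ⌊f a⌋ ⌊f b⌋ with h1 | h1 | h1
  · exfalso
    have h2 : f a < (⌊f b⌋ : ℝ) := Int.floor_lt.1 h1
    have h3 : ((⌊f b⌋ : ℤ) : ℝ) ∈ Icc (f a) (f b) := ⟨h2.le, Int.floor_le _⟩
    obtain ⟨φ, hφ, he⟩ := intermediate_value_Icc hab hf h3
    exact h φ hφ _ he
  · exact h1.symm
  · exfalso
    have h2 : f b < (⌊f a⌋ : ℝ) := Int.floor_lt.1 h1
    have h3 : ((⌊f a⌋ : ℤ) : ℝ) ∈ Icc (f b) (f a) := ⟨h2.le, Int.floor_le _⟩
    obtain ⟨φ, hφ, he⟩ := intermediate_value_Icc' hab hf h3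
    exact h φ hφ _ he

variable {g x y α r : ℝ → ℝ}

/-- integral values of `α / 2π` are zeros of `y` with `x > 0` -/
theorem Dat.int_iff (D : Dat g x y α r) {φ : ℝ} {n : ℤ} (h : α φ / (2 * Real.pi) = n) :
    y φ = 0 ∧ 0 < x φ := by
  have h1 : α φ = n * (2 * Real.pi) := by
    rw [div_eq_iff (by positivity)] at h
    exact h
  refine ⟨?_, ?_⟩
  · rw [D.hy, h1, show (n : ℝ) * (2 * Real.pi) = 0 + n * (2 * Real.pi) by ring,
      Real.sin_add_int_mul_two_pi, Real.sin_zero, mul_zero]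
  · rw [D.hx, h1, show (n : ℝ) * (2 * Real.pi) = 0 + n * (2 * Real.pi) by ring,
      Real.cos_add_int_mul_two_pi, Real.cos_zero, mul_one]
    exact D.pos φ

theorem Dat.int_of (D : Dat g x y α r) {φ : ℝ} (h : y φ = 0) (hx : 0 < x φ) :
    ∃ n : ℤ, α φ = n * (2 * Real.pi) := by
  have hr := D.pos φ
  have h1 : Real.sin (α φ) = 0 := by
    rcases mul_eq_zero.1 ((D.hy φ).symm.trans h) with h2 | h2
    · exact absurd h2 hr.ne'
    · exact h2
  have h2 : 0 < Real.cos (α φ) := by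
    have := hx
    rw [D.hx] at this
    exact (mul_pos_iff_of_pos_left hr).1 this
  have h3 : Real.cos (α φ) = 1 := by
    have := Real.sin_sq_add_cos_sq (α φ)
    rw [h1] at this
    nlinarith
  obtain ⟨n, hn⟩ := (Real.cos_eq_one_iff _).1 h3
  exact ⟨n, hn.symm⟩

theorem Dat.cont (D : Dat g x y α r) : Continuous fun φ => α φ / (2 * Real.pi) :=
  D.ca.div_const _

/-- no zeros with `x > 0`: no turns -/
theorem Dat.const (D : Dat g x y α r) {a b : ℝ} (hab : a ≤ b)
    (h : ∀ φ ∈ Icc a b, y φ = 0 → ¬ 0 < x φ) : tu α b = tu α a :=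
  fl_const hab D.cont.continuousOn fun φ hφ _ he => h φ hφ (D.int_iff he).1 (D.int_iff he).2

/-- a continuous function without zeros has constant sign -/
theorem sign_const {a b : ℝ} (cy : Continuous y) (h : ∀ φ ∈ Icc a b, y φ ≠ 0) {c d : ℝ}
    (hc : c ∈ Icc a b) (hd : d ∈ Icc a b) (hp : 0 < y c) : 0 < y d := by
  by_contra hn
  have hn' : y d ≤ 0 := not_lt.1 hn
  have h1 : (0 : ℝ) ∈ uIcc (y c) (y d) := by
    rw [uIcc_of_ge (hn'.trans hp.le)]
    exact ⟨hn', hp.le⟩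
  obtain ⟨φ, hφ, he⟩ := intermediate_value_uIcc (cy.continuousOn (s := uIcc c d)) h1
  have h2 : uIcc c d ⊆ Icc a b := by
    intro t ht
    rcases le_total c d with hcd | hcd
    · rw [uIcc_of_le hcd] at ht
      exact ⟨hc.1.trans ht.1, ht.2.trans hd.2⟩
    · rw [uIcc_of_ge hcd] at ht
      exact ⟨hd.1.trans ht.1, ht.2.trans hc.2⟩
  exact h φ (h2 hφ) he

theorem sign_const' {a b : ℝ} (cy : Continuous y) (h : ∀ φ ∈ Icc a b, y φ ≠ 0) {c d : ℝ}
    (hc : c ∈ Icc a b) (hd : d ∈ Icc a b) (hp : y c < 0) : y d < 0 := by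
  have := sign_const (y := fun t => -y t) cy.neg (fun φ hφ => neg_ne_zero.2 (h φ hφ)) hc hd
    (neg_pos.2 hp)
  exact neg_pos.1 this

/-- floor near an integral value, from the sign of `y` -/
theorem Dat.near (D : Dat g x y α r) {n : ℤ} {φ : ℝ} (h : |α φ - n * (2 * Real.pi)| < Real.pi) :
    (0 < y φ → tu α φ = n) ∧ (y φ < 0 → tu α φ = n - 1) := by
  have hpi := Real.pi_pos
  obtain ⟨h1, h2⟩ := abs_lt.1 h
  set t := α φ - n * (2 * Real.pi) with ht
  have hs : Real.sin (α φ) = Real.sin t := by rw [ht, Real.sin_sub_int_mul_two_pi]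
  have hy := D.hy φ
  rw [hs] at hy
  have hr := D.pos φ
  have he : α φ / (2 * Real.pi) = n + t / (2 * Real.pi) := by
    rw [ht]
    field_simp
    ring
  constructor
  · intro hp
    have h3 : 0 < t := by
      by_contra hn
      have : Real.sin t ≤ 0 := Real.sin_nonpos_of_nonpos_of_neg_pi_le (not_lt.1 hn) h1.le
      nlinarith
    unfold tu
    rw [he, Int.floor_eq_iff]
    constructor
    · have : 0 < t / (2 * Real.pi) := by positivity
      linarith
    · have : t / (2 * Real.pi) < 1 := by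
        rw [div_lt_one (by positivity)]
        linarith
      linarith
  · intro hp
    have h3 : t < 0 := by
      by_contra hn
      have : 0 ≤ Real.sin t := Real.sin_nonneg_of_nonneg_of_le_pi (not_lt.1 hn) h2.le
      nlinarith
    unfold tu
    rw [he, Int.floor_eq_iff]
    push_cast
    constructor
    · have : -1 ≤ t / (2 * Real.pi) := by
        rw [le_div_iff₀ (by positivity)]
        linarith
      linarith
    · have : t / (2 * Real.pi) < 0 := div_neg_of_neg_of_pos h3 (by positivity)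
      linarith

/-- left of a zero -/
theorem Dat.left (D : Dat g x y α r) {a z : ℝ} (haz : a < z) (h : ∀ φ ∈ Ico a z, y φ ≠ 0) {n : ℤ}
    (hn : α z = n * (2 * Real.pi)) : (0 < y a → tu α a = n) ∧ (y a < 0 → tu α a = n - 1) := by
  have hpi := Real.pi_pos
  have h1 : ∀ᶠ φ in 𝓝 z, |α φ - n * (2 * Real.pi)| < Real.pi := by
    have h2 : Tendsto (fun φ => |α φ - n * (2 * Real.pi)|) (𝓝 z) (𝓝 |α z - n * (2 * Real.pi)|) :=
      ((D.ca.sub continuous_const).abs).tendsto z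
    rw [hn, sub_self, abs_zero] at h2
    exact h2.eventually (gt_mem_nhds hpi)
  obtain ⟨φ, hφ, h3⟩ := ((h1.filter_mono (nhdsWithin_le_nhds (s := Iio z))).and
    (Ico_mem_nhdsLT haz)).exists
  have hsub : ∀ t ∈ Icc a φ, y t ≠ 0 := fun t ht => h t ⟨ht.1, ht.2.trans_lt h3.2⟩
  have hc : tu α φ = tu α a := D.const h3.1 fun t ht he => absurd he (hsub t ht)
  have hm1 : a ∈ Icc a φ := ⟨le_rfl, h3.1⟩
  have hm2 : φ ∈ Icc a φ := ⟨h3.1, le_rfl⟩
  constructor
  · intro hp
    rw [← hc]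
    exact (D.near hφ).1 (sign_const D.cy hsub hm1 hm2 hp)
  · intro hp
    rw [← hc]
    exact (D.near hφ).2 (sign_const' D.cy hsub hm1 hm2 hp)

/-- right of a zero -/
theorem Dat.right (D : Dat g x y α r) {b z : ℝ} (hzb : z < b) (h : ∀ φ ∈ Ioc z b, y φ ≠ 0) {n : ℤ}
    (hn : α z = n * (2 * Real.pi)) : (0 < y b → tu α b = n) ∧ (y b < 0 → tu α b = n - 1) := by
  have hpi := Real.pi_pos
  have h1 : ∀ᶠ φ in 𝓝 z, |α φ - n * (2 * Real.pi)| < Real.pi := by
    have h2 : Tendsto (fun φ => |α φ - n * (2 * Real.pi)|) (𝓝 z) (𝓝 |α z - n * (2 * Real.pi)|) :=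
      ((D.ca.sub continuous_const).abs).tendsto z
    rw [hn, sub_self, abs_zero] at h2
    exact h2.eventually (gt_mem_nhds hpi)
  obtain ⟨φ, hφ, h3⟩ := ((h1.filter_mono (nhdsWithin_le_nhds (s := Ioi z))).and
    (Ioc_mem_nhdsGT hzb)).exists
  have hsub : ∀ t ∈ Icc φ b, y t ≠ 0 := fun t ht => h t ⟨h3.1.trans_le ht.1, ht.2⟩
  have hc : tu α b = tu α φ := D.const h3.2 fun t ht he => absurd he (hsub t ht)
  have hm1 : b ∈ Icc φ b := ⟨h3.2, le_rfl⟩
  have hm2 : φ ∈ Icc φ b := ⟨le_rfl, h3.2⟩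
  constructor
  · intro hp
    rw [hc]
    exact (D.near hφ).1 (sign_const D.cy hsub hm1 hm2 hp)
  · intro hp
    rw [hc]
    exact (D.near hφ).2 (sign_const' D.cy hsub hm1 hm2 hp)

/-! ### extrema from signs -/

section Ext

variable {a z b : ℝ}

theorem mono_left (dg : ∀ φ, HasDerivAt g (y φ) φ) (h : ∀ φ ∈ Ico a z, 0 < y φ) (haz : a < z) :
    StrictMonoOn g (Icc a z) := by
  refine strictMonoOn_of_deriv_pos (convex_Icc a z)
    (fun t _ => (dg t).continuousAt.continuousWithinAt) fun t ht => ?_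
  rw [interior_Icc] at ht
  rw [(dg t).deriv]
  exact h t ⟨ht.1.le, ht.2⟩

theorem anti_left (dg : ∀ φ, HasDerivAt g (y φ) φ) (h : ∀ φ ∈ Ico a z, y φ < 0) (haz : a < z) :
    StrictAntiOn g (Icc a z) := by
  refine strictAntiOn_of_deriv_neg (convex_Icc a z)
    (fun t _ => (dg t).continuousAt.continuousWithinAt) fun t ht => ?_
  rw [interior_Icc] at ht
  rw [(dg t).deriv]
  exact h t ⟨ht.1.le, ht.2⟩

theorem mono_right (dg : ∀ φ, HasDerivAt g (y φ) φ) (h : ∀ φ ∈ Ioc z b, 0 < y φ) (hzb : z < b) :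
    StrictMonoOn g (Icc z b) := by
  refine strictMonoOn_of_deriv_pos (convex_Icc z b)
    (fun t _ => (dg t).continuousAt.continuousWithinAt) fun t ht => ?_
  rw [interior_Icc] at ht
  rw [(dg t).deriv]
  exact h t ⟨ht.1, ht.2.le⟩

theorem anti_right (dg : ∀ φ, HasDerivAt g (y φ) φ) (h : ∀ φ ∈ Ioc z b, y φ < 0) (hzb : z < b) :
    StrictAntiOn g (Icc z b) := by
  refine strictAntiOn_of_deriv_neg (convex_Icc z b)
    (fun t _ => (dg t).continuousAt.continuousWithinAt) fun t ht => ?_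
  rw [interior_Icc] at ht
  rw [(dg t).deriv]
  exact h t ⟨ht.1, ht.2.le⟩

/-- not a minimum if `g` increases on the left -/
theorem not_min_left (dg : ∀ φ, HasDerivAt g (y φ) φ) (h : ∀ φ ∈ Ico a z, 0 < y φ) (haz : a < z) :
    ¬ IsLocalMin g z := by
  intro hm
  obtain ⟨φ, h1, h2⟩ := ((hm.filter_mono (nhdsWithin_le_nhds (s := Iio z))).and
    (Ico_mem_nhdsLT haz)).exists
  have h3 := mono_left dg h haz ⟨h2.1, h2.2.le⟩ ⟨haz.le, le_rfl⟩ h2.2
  exact absurd h1 (not_le.2 h3)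

theorem not_max_left (dg : ∀ φ, HasDerivAt g (y φ) φ) (h : ∀ φ ∈ Ico a z, y φ < 0) (haz : a < z) :
    ¬ IsLocalMax g z := by
  intro hm
  obtain ⟨φ, h1, h2⟩ := ((hm.filter_mono (nhdsWithin_le_nhds (s := Iio z))).and
    (Ico_mem_nhdsLT haz)).exists
  have h3 := anti_left dg h haz ⟨h2.1, h2.2.le⟩ ⟨haz.le, le_rfl⟩ h2.2
  exact absurd h1 (not_le.2 h3)

theorem not_min_right (dg : ∀ φ, HasDerivAt g (y φ) φ) (h : ∀ φ ∈ Ioc z b, y φ < 0) (hzb : z < b) :
    ¬ IsLocalMin g z := by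
  intro hm
  obtain ⟨φ, h1, h2⟩ := ((hm.filter_mono (nhdsWithin_le_nhds (s := Ioi z))).and
    (Ioc_mem_nhdsGT hzb)).exists
  have h3 := anti_right dg h hzb ⟨le_rfl, hzb.le⟩ ⟨h2.1.le, h2.2⟩ h2.1
  exact absurd h1 (not_le.2 h3)

theorem not_max_right (dg : ∀ φ, HasDerivAt g (y φ) φ) (h : ∀ φ ∈ Ioc z b, 0 < y φ) (hzb : z < b) :
    ¬ IsLocalMax g z := by
  intro hm
  obtain ⟨φ, h1, h2⟩ := ((hm.filter_mono (nhdsWithin_le_nhds (s := Ioi z))).and
    (Ioc_mem_nhdsGT hzb)).exists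
  have h3 := mono_right dg h hzb ⟨le_rfl, hzb.le⟩ ⟨h2.1.le, h2.2⟩ h2.1
  exact absurd h1 (not_le.2 h3)

theorem is_min (dg : ∀ φ, HasDerivAt g (y φ) φ) (h : ∀ φ ∈ Ico a z, y φ < 0) (haz : a < z)
    (h' : ∀ φ ∈ Ioc z b, 0 < y φ) (hzb : z < b) : IsLocalMin g z := by
  filter_upwards [Ioo_mem_nhds haz hzb] with φ hφ
  rcases le_total φ z with h1 | h1
  · exact (anti_left dg h haz).antitoneOn ⟨hφ.1.le, h1⟩ ⟨haz.le, le_rfl⟩ h1
  · exact (mono_right dg h' hzb).monotoneOn ⟨le_rfl, hzb.le⟩ ⟨h1, hφ.2.le⟩ h1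

theorem is_max (dg : ∀ φ, HasDerivAt g (y φ) φ) (h : ∀ φ ∈ Ico a z, 0 < y φ) (haz : a < z)
    (h' : ∀ φ ∈ Ioc z b, y φ < 0) (hzb : z < b) : IsLocalMax g z := by
  filter_upwards [Ioo_mem_nhds haz hzb] with φ hφ
  rcases le_total φ z with h1 | h1
  · exact (mono_left dg h haz).monotoneOn ⟨hφ.1.le, h1⟩ ⟨haz.le, le_rfl⟩ h1
  · exact (anti_right dg h' hzb).antitoneOn ⟨le_rfl, hzb.le⟩ ⟨h1, hφ.2.le⟩ h1

end Ext

/-- sign on a half open interval -/
theorem sgn_left {a z : ℝ} (cy : Continuous y) (haz : a < z) (h : ∀ φ ∈ Ico a z, y φ ≠ 0) :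
    (0 < y a ∧ ∀ φ ∈ Ico a z, 0 < y φ) ∨ (y a < 0 ∧ ∀ φ ∈ Ico a z, y φ < 0) := by
  have ha := h a ⟨le_rfl, haz⟩
  rcases lt_or_gt_of_ne ha with h1 | h1
  · right
    refine ⟨h1, fun φ hφ => ?_⟩
    exact sign_const' cy (a := a) (b := φ) (fun t ht => h t ⟨ht.1, ht.2.trans_lt hφ.2⟩)
      ⟨le_rfl, hφ.1⟩ ⟨hφ.1, le_rfl⟩ h1
  · left
    refine ⟨h1, fun φ hφ => ?_⟩
    exact sign_const cy (a := a) (b := φ) (fun t ht => h t ⟨ht.1, ht.2.trans_lt hφ.2⟩)
      ⟨le_rfl, hφ.1⟩ ⟨hφ.1, le_rfl⟩ h1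

theorem sgn_right {b z : ℝ} (cy : Continuous y) (hzb : z < b) (h : ∀ φ ∈ Ioc z b, y φ ≠ 0) :
    (0 < y b ∧ ∀ φ ∈ Ioc z b, 0 < y φ) ∨ (y b < 0 ∧ ∀ φ ∈ Ioc z b, y φ < 0) := by
  have hb := h b ⟨hzb, le_rfl⟩
  rcases lt_or_gt_of_ne hb with h1 | h1
  · right
    refine ⟨h1, fun φ hφ => ?_⟩
    exact sign_const' cy (a := φ) (b := b) (fun t ht => h t ⟨hφ.1.trans_le ht.1, ht.2⟩)
      ⟨hφ.2, le_rfl⟩ ⟨le_rfl, hφ.2⟩ h1
  · left
    refine ⟨h1, fun φ hφ => ?_⟩
    exact sign_const cy (a := φ) (b := b) (fun t ht => h t ⟨hφ.1.trans_le ht.1, ht.2⟩)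
      ⟨hφ.2, le_rfl⟩ ⟨le_rfl, hφ.2⟩ h1

/-- one zero -/
theorem Dat.one (D : Dat g x y α r) {a z b : ℝ} (haz : a < z) (hzb : z < b) (hz : y z = 0)
    (hl : ∀ φ ∈ Ico a z, y φ ≠ 0) (hr : ∀ φ ∈ Ioc z b, y φ ≠ 0) :
    tu α b - tu α a = wt g x z := by
  by_cases hx : 0 < x z
  · obtain ⟨n, hn⟩ := D.int_of hz hx
    obtain ⟨l1, l2⟩ := D.left haz hl hn
    obtain ⟨r1, r2⟩ := D.right hzb hr hn
    rcases sgn_left D.cy haz hl with ⟨ha, hA⟩ | ⟨ha, hA⟩ <;>
      rcases sgn_right D.cy hzb hr with ⟨hb, hB⟩ | ⟨hb, hB⟩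
    · rw [l1 ha, r1 hb]
      unfold wt
      rw [if_neg (fun h => not_min_left D.dg hA haz h.1),
        if_neg (fun h => not_max_right D.dg hB hzb h.1)]
      ring
    · rw [l1 ha, r2 hb]
      unfold wt
      rw [if_neg (fun h => not_min_left D.dg hA haz h.1),
        if_pos ⟨is_max D.dg hA haz hB hzb, hx⟩]
      ring
    · rw [l2 ha, r1 hb]
      unfold wt
      rw [if_pos ⟨is_min D.dg hA haz hB hzb, hx⟩,
        if_neg (fun h => not_max_left D.dg hA haz h.1)]
      ring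
    · rw [l2 ha, r2 hb]
      unfold wt
      rw [if_neg (fun h => not_min_right D.dg hB hzb h.1),
        if_neg (fun h => not_max_left D.dg hA haz h.1)]
      ring
  · have h1 : tu α b = tu α a := by
      refine D.const (haz.le.trans hzb.le) fun φ hφ he => ?_
      rcases lt_trichotomy φ z with h | h | h
      · exact absurd he (hl φ ⟨hφ.1, h⟩)
      · rw [h]
        exact hx
      · exact absurd he (hr φ ⟨h, hφ.2⟩)
    unfold wt
    rw [h1, if_neg (fun h => hx h.2), if_neg (fun h => hx h.2)]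
    ring

/-- finitely many zeros -/
theorem Dat.sum (D : Dat g x y α r) : ∀ (n : ℕ) (Z : Finset ℝ) (a b : ℝ), Z.card = n → a ≤ b →
    y a ≠ 0 → y b ≠ 0 → (∀ φ ∈ Icc a b, y φ = 0 ↔ φ ∈ Z) → (∀ z ∈ Z, a < z ∧ z < b) →
    tu α b - tu α a = ∑ z ∈ Z, wt g x z := by
  intro n
  induction n with
  | zero =>
    intro Z a b hZ hab _ _ hz _
    have hZ0 : Z = ∅ := Finset.card_eq_zero.1 hZ
    subst hZ0
    have h1 : tu α b = tu α a :=
      D.const hab fun φ hφ he => absurd ((hz φ hφ).1 he) (Finset.notMem_empty _)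
    rw [h1, Finset.sum_empty, sub_self]
  | succ n ih =>
    intro Z a b hZ hab ha hb hz hm
    have hne : Z.Nonempty := Finset.card_pos.1 (by omega)
    set z := Z.max' hne with hzdef
    have hzZ : z ∈ Z := Finset.max'_mem _ _
    obtain ⟨haz, hzb⟩ := hm z hzZ
    set Z' := Z.erase z with hZ'
    have hlt : ∀ w ∈ Z', w < z := by
      intro w hw
      exact lt_of_le_of_ne (Finset.le_max' _ _ (Finset.mem_of_mem_erase hw))
        (Finset.ne_of_mem_erase hw)
    have hne2 : (insert a Z').Nonempty := Finset.insert_nonempty _ _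
    set m := (insert a Z').max' hne2 with hmdef
    have hmz : m < z := by
      rw [hmdef, Finset.max'_lt_iff]
      intro w hw
      rcases Finset.mem_insert.1 hw with rfl | hw
      · exact haz
      · exact hlt w hw
    have ham : a ≤ m := Finset.le_max' _ _ (Finset.mem_insert_self _ _)
    set c := (m + z) / 2 with hc
    have hmc : m < c := by rw [hc]; linarith
    have hcz : c < z := by rw [hc]; linarith
    have hZc : ∀ w ∈ Z', w < c := fun w hw =>
      (Finset.le_max' _ _ (Finset.mem_insert_of_mem hw)).trans_lt hmc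
    have hyc : ∀ φ ∈ Icc c b, y φ = 0 → φ = z := by
      intro φ hφ he
      have h1 := (hz φ ⟨ham.trans (hmc.le.trans hφ.1), hφ.2⟩).1 he
      by_contra hn
      exact absurd (hZc φ (Finset.mem_erase.2 ⟨hn, h1⟩)) (not_lt.2 hφ.1)
    have hyc0 : y c ≠ 0 := fun he => hcz.ne (hyc c ⟨le_rfl, hcz.le.trans hzb.le⟩ he)
    have h1 := ih Z' a c (by rw [hZ', Finset.card_erase_of_mem hzZ, hZ]; omega)
      (ham.trans hmc.le) ha hyc0 (by
        intro φ hφ
        rw [hz φ ⟨hφ.1, hφ.2.trans (hcz.le.trans hzb.le)⟩, hZ', Finset.mem_erase]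
        constructor
        · intro h
          exact ⟨(hφ.2.trans_lt hcz).ne, h⟩
        · intro h
          exact h.2) (by
        intro w hw
        exact ⟨(hm w (Finset.mem_of_mem_erase hw)).1, hZc w hw⟩)
    have h2 := D.one hcz hzb ((hz z ⟨haz.le, hzb.le⟩).2 hzZ)
      (fun φ hφ he => hφ.2.ne (hyc φ ⟨hφ.1, hφ.2.le.trans hzb.le⟩ he))
      (fun φ hφ he => hφ.1.ne' (hyc φ ⟨hcz.le.trans hφ.1.le, hφ.2⟩ he))
    have h3 : ∑ w ∈ Z, wt g x w = wt g x z + ∑ w ∈ Z', wt g x w := by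
      rw [hZ', Finset.add_sum_erase _ _ hzZ]
    rw [h3, ← h1, ← h2]
    ring

/-- the whole period -/
theorem Dat.total (D : Dat g x y α r) (px : ∀ φ, x (φ + 2 * Real.pi) = x φ)
    (py : ∀ φ, y (φ + 2 * Real.pi) = y φ) (Z : Finset ℝ)
    (hZ : ∀ φ, φ ∈ Z ↔ φ ∈ Ico 0 (2 * Real.pi) ∧ y φ = 0) :
    α (2 * Real.pi) - α 0 = 2 * Real.pi * (∑ z ∈ Z, wt g x z : ℤ) := by
  have hpi := Real.pi_pos
  -- the difference `α (φ + 2π) - α φ` is a constant integral multiple of `2π`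
  have hval : ∀ φ, ∃ n : ℤ, (α (φ + 2 * Real.pi) - α φ) / (2 * Real.pi) = n := by
    intro φ
    have hr := D.pos φ
    have hr2 := D.pos (φ + 2 * Real.pi)
    have e1 : r (φ + 2 * Real.pi) * Real.cos (α (φ + 2 * Real.pi)) = r φ * Real.cos (α φ) := by
      rw [← D.hx, ← D.hx, px]
    have e2 : r (φ + 2 * Real.pi) * Real.sin (α (φ + 2 * Real.pi)) = r φ * Real.sin (α φ) := by
      rw [← D.hy, ← D.hy, py]
    have e3 : r (φ + 2 * Real.pi) * Real.cos (α (φ + 2 * Real.pi) - α φ) = r φ := by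
      rw [Real.cos_sub]
      have := Real.sin_sq_add_cos_sq (α φ)
      linear_combination Real.cos (α φ) * e1 + Real.sin (α φ) * e2 + r φ * this
    have e4 : r (φ + 2 * Real.pi) * Real.sin (α (φ + 2 * Real.pi) - α φ) = 0 := by
      rw [Real.sin_sub]
      linear_combination Real.cos (α φ) * e2 - Real.sin (α φ) * e1
    have e5 : Real.sin (α (φ + 2 * Real.pi) - α φ) = 0 := by
      rcases mul_eq_zero.1 e4 with h | h
      · exact absurd h hr2.ne'
      · exact h
    have e6 : 0 < Real.cos (α (φ + 2 * Real.pi) - α φ) := by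
      rw [← mul_pos_iff_of_pos_left hr2, e3]
      exact hr
    have e7 : Real.cos (α (φ + 2 * Real.pi) - α φ) = 1 := by
      have := Real.sin_sq_add_cos_sq (α (φ + 2 * Real.pi) - α φ)
      rw [e5] at this
      nlinarith
    obtain ⟨n, hn⟩ := (Real.cos_eq_one_iff _).1 e7
    refine ⟨n, ?_⟩
    rw [← hn]
    field_simp
  obtain ⟨k, hk⟩ : ∃ k : ℤ, ∀ φ, α (φ + 2 * Real.pi) - α φ = 2 * Real.pi * k := by
    obtain ⟨k, hk⟩ := hval 0
    refine ⟨k, fun φ => ?_⟩
    obtain ⟨n, hn⟩ := hval φ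
    have hcont : Continuous fun φ => (α (φ + 2 * Real.pi) - α φ) / (2 * Real.pi) :=
      ((D.ca.comp (continuous_id.add continuous_const)).sub D.ca).div_const _
    have hnk : n = k := by
      by_contra hne
      -- intermediate value: a value which is not an integer
      have hv : ∃ v : ℝ, v ∈ uIcc (k : ℝ) n ∧ ∀ l : ℤ, v ≠ l := by
        rcases lt_or_gt_of_ne hne with h | h
        · refine ⟨n + 1 / 2, ?_, ?_⟩
          · have : (n : ℝ) + 1 ≤ k := by exact_mod_cast h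
            rw [uIcc_of_ge (by linarith)]
            exact ⟨by linarith, by linarith⟩
          · intro l hl
            have h1 : (n : ℝ) < l := by rw [← hl]; linarith
            have h2 : (l : ℝ) < n + 1 := by rw [← hl]; linarith
            have h1' : n < l := by exact_mod_cast h1
            have h2' : l < n + 1 := by exact_mod_cast h2
            omega
        · refine ⟨k + 1 / 2, ?_, ?_⟩
          · have : (k : ℝ) + 1 ≤ n := by exact_mod_cast h
            rw [uIcc_of_le (by linarith)]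
            exact ⟨by linarith, by linarith⟩
          · intro l hl
            have h1 : (k : ℝ) < l := by rw [← hl]; linarith
            have h2 : (l : ℝ) < k + 1 := by rw [← hl]; linarith
            have h1' : k < l := by exact_mod_cast h1
            have h2' : l < k + 1 := by exact_mod_cast h2
            omega
      obtain ⟨v, hv, hv2⟩ := hv
      rw [← hk, ← hn] at hv
      obtain ⟨t, -, ht⟩ := intermediate_value_uIcc
        (hcont.continuousOn (s := uIcc 0 φ)) hv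
      obtain ⟨l, hl⟩ := hval t
      exact hv2 l (ht.symm.trans hl)
    rw [hnk, div_eq_iff (by positivity)] at hn
    rw [hn]
    ring
  -- the base point
  have hbase : ∃ a : ℝ, a < 0 ∧ -(2 * Real.pi) < a ∧ ∀ φ ∈ Ico a 0, y φ ≠ 0 := by
    set Z2 : Finset ℝ := insert (-(2 * Real.pi)) (Z.image fun z => z - 2 * Real.pi) with hZ2
    have hne : Z2.Nonempty := Finset.insert_nonempty _ _
    set m := Z2.max' hne with hm
    have hm0 : m < 0 := by
      rw [hm, Finset.max'_lt_iff]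
      intro w hw
      rcases Finset.mem_insert.1 hw with rfl | hw
      · linarith
      · obtain ⟨z, hz, rfl⟩ := Finset.mem_image.1 hw
        have := ((hZ z).1 hz).1.2
        show z - 2 * Real.pi < 0
        linarith
    have hm1 : -(2 * Real.pi) ≤ m := Finset.le_max' _ _ (Finset.mem_insert_self _ _)
    refine ⟨m / 2, by linarith, by linarith, fun φ hφ he => ?_⟩
    have h1 : φ + 2 * Real.pi ∈ Z := by
      rw [hZ]
      refine ⟨⟨?_, ?_⟩, ?_⟩
      · have := hφ.1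
        linarith
      · have := hφ.2
        linarith
      · rw [py]
        exact he
    have h2 : φ ∈ Z2 := by
      rw [hZ2]
      refine Finset.mem_insert_of_mem (Finset.mem_image.2 ⟨_, h1, ?_⟩)
      show φ + 2 * Real.pi - 2 * Real.pi = φ
      ring
    have h3 : φ ≤ m := Finset.le_max' _ _ h2
    have := hφ.1
    linarith
  obtain ⟨a, ha0, ha1, hay⟩ := hbase
  have hya : y a ≠ 0 := hay a ⟨le_rfl, ha0⟩
  have hyb : y (a + 2 * Real.pi) ≠ 0 := by rw [py]; exact hya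
  have hmain := D.sum Z.card Z a (a + 2 * Real.pi) rfl (by linarith) hya hyb (by
    intro φ hφ
    rw [hZ]
    constructor
    · intro he
      refine ⟨⟨?_, ?_⟩, he⟩
      · by_contra hn
        exact hay φ ⟨hφ.1, not_le.1 hn⟩ he
      · by_contra hn
        have h1 : 2 * Real.pi ≤ φ := not_lt.1 hn
        refine hay (φ - 2 * Real.pi) ?_ ?_
        · refine ⟨by linarith, ?_⟩
          have h2 := hφ.2
          linarith
        · rw [← py, sub_add_cancel]
          exact he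
    · intro h
      exact h.2) (by
    intro z hz
    have h1 := ((hZ z).1 hz).1
    have h2 := ((hZ z).1 hz).2
    refine ⟨by linarith [h1.1], ?_⟩
    by_contra hn
    refine hay (z - 2 * Real.pi) ?_ ?_
    · exact ⟨by linarith, by linarith [h1.2]⟩
    · rw [← py, sub_add_cancel]
      exact h2)
  rw [← hmain]
  have h4 : tu α (a + 2 * Real.pi) = tu α a + k := by
    unfold tu
    have h5 : α (a + 2 * Real.pi) / (2 * Real.pi) = α a / (2 * Real.pi) + k := by
      have := hk a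
      have h6 : α (a + 2 * Real.pi) = α a + 2 * Real.pi * k := by linarith
      rw [h6]
      field_simp
    rw [h5, Int.floor_add_intCast]
  rw [h4]
  have h5 := hk 0
  rw [zero_add] at h5
  rw [h5]
  push_cast
  ring

end Pool.Agent.PQP.Windex
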